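import Mathlib
import Pool.Agent.Q19.SU.Gen

/-!
# Project UO (helper9): a uniform open image theorem; statements of the packages, with complete proofs

Aim (hard row MP_d87173_nt): for every `β > 0` there are `N ≥ 1` and `C` such that for EVERY number field `K`, of ANY
degree, and every elliptic curve `E / K` with `h(j) ≥ C [K : ℚ]` and `∑_{poles of j} log N v ≥ β h(j)` (bounded Szpiro
ratio), and for EVERY `n ≥ 1`: the image of the Galois group in `Aut E[n]` contains all automorphisms of determinant `1`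
which are congruent to `1` modulo `N`. (The image in `GL₂(ℤ^)` contains the principal congruence subgroup of level `N`
of `SL₂(ℤ^)`, `N = N(β)` independent of `E` AND of `K`.)

Available: `P8H9.TQ.cyc_all` (the orders of the stable cyclic subgroups divide `N(β)`), `Q237.US.fa_bound'` (`SL₂(𝔽_p)` for
large `p`), `N495.TS.serre` (from `p` to `p ^ k`). Missing: an element of the inertia group for small `p` (TAU) and group
theory (all the other packages), in the language of `Pool.Agent.Q19.SU.Gen` (`Bas`, `Rl`; `[[a, b], [c, d]]` is the matrix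
of `σ` with `σ P = a P + c Q`, `σ Q = b P + d Q`).
-/

set_option autoImplicit false

namespace Pool.Agent.P8H9.UO

open Pool.Agent.Q19.SU.Gen

section
variable {G V : Type} [Group G] [AddCommGroup V]

/-- an action on a group which has bases at all levels -/
structure Rep (ρ : G → V →+ V) : Prop where
  mul : ∀ σ τ v, ρ (σ * τ) v = ρ σ (ρ τ v)
  one : ∀ v, ρ 1 v = v
  bas : ∀ n : ℕ, 1 ≤ n → ∃ P Q : V, Bas n P Q

/-- the matrix is realised by an element of the commutator subgroup acting trivially on the elements killed by `m` -/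
def RS (ρ : G → V →+ V) (m : ℕ) (P Q : V) (a b c d : ℤ) : Prop :=
  ∃ σ ∈ commutator G, ρ σ P = a • P + c • Q ∧ ρ σ Q = b • P + d • Q ∧
    ∀ R : V, (m : ℤ) • R = 0 → ρ σ R = R

/-- all matrices of determinant one modulo `n`, which are `1` modulo `N`, are realised -/
def AllN (ρ : G → V →+ V) (N n m : ℕ) (P Q : V) : Prop :=
  ∀ a b c d : ℤ, (n : ℤ) ∣ a * d - b * c - 1 → (N : ℤ) ∣ a - 1 → (N : ℤ) ∣ b → (N : ℤ) ∣ c →
    (N : ℤ) ∣ d - 1 → Rl ρ m P Q a b c d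

/-- the same by elements of the commutator subgroup -/
def AS (ρ : G → V →+ V) (N n m : ℕ) (P Q : V) : Prop :=
  ∀ a b c d : ℤ, (n : ℤ) ∣ a * d - b * c - 1 → (N : ℤ) ∣ a - 1 → (N : ℤ) ∣ b → (N : ℤ) ∣ c →
    (N : ℤ) ∣ d - 1 → RS ρ m P Q a b c d

end

/-- **TRV** (the shape of a unipotent element). Proof. `D = ρ u - 1`, `D² = 0` on `V[p^K]`. Let `r ≤ s` be minimal with
`D ≠ 0` on `V[p^(r+1)]`, so `D = 0` on `V[p^r]`; `P₁ ∈ V[p^(r+1)]`, `D P₁ ≠ 0`. Take `Q₀ ∈ V[p^K]` with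
`p^(K-r-1) Q₀ = P₁` (from a basis of `V[p^K]`), `P = D Q₀`, `Q = p^r Q₀`. `p^(K-r) P = D(p P₁) = 0` (as `p P₁ ∈ V[p^r]`),
`D P = 0`, `ρ u Q = Q + p^r P`. Basis of `V[p^(K-r)]`: by `Bas.lift` it suffices that `p^(K-r-1) P = D P₁` and
`p^(K-r-1) Q = p^r P₁` are a basis of `V[p]` (two elements of `V[p] ≅ 𝔽_p²`, the first nonzero, the second not a multiple
of the first). Suppose `p^r P₁ = c D P₁`. Then `W = c P - Q` is killed by `p^(K-r-1)`, so `W = p^(r+1) W'` with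
`W' ∈ V[p^K]`, and `D W = - p^r P`. `p^(K-r) D W' = D(p^(K-r) W') = 0` (`p^(K-r) W' ∈ V[p^r]`). So
`0 = p^(K-r) D W' = p^(K-2r-1) D W = - p^(K-r-1) P = - D P₁`, a contradiction. -/
def S_TRV : Prop := ∀ (G V : Type) [Group G] [AddCommGroup V] (ρ : G → V →+ V), Rep ρ →
  ∀ p s K : ℕ, p.Prime → 2 * s + 2 ≤ K → ∀ u : G,
  (∀ R : V, ((p : ℤ) ^ K) • R = 0 → ρ u (ρ u R - R) = ρ u R - R) →
  (∃ P : V, ((p : ℤ) ^ (s + 1)) • P = 0 ∧ ρ u P ≠ P) →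
  ∃ (r : ℕ) (P Q : V), r ≤ s ∧ Bas (p ^ (K - r)) P Q ∧ ρ u P = P ∧ ρ u Q = Q + ((p : ℤ) ^ r) • P

/-- **PAD** (two transvections generate a congruence subgroup). Proof. `v(c) = r' < t`; `M = 2r + 3t`. Lift
`[[α, β], [γ, δ]]` to a matrix `T` of determinant one over `ℤ_p` (change `δ`: `δ' = (1 + βγ)/α`), `T ≡ 1` mod `p^M`.
Let `B = [[1, a], [0, c]]` (the basis `P`, `P₂ = a P + c Q`). `T' = B⁻¹ T B = 1 + B⁻¹ (T - 1) B ≡ 1` modulo `p^(M-r')`.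
Identity: for `T' = [[A, b'], [c', D']]` of determinant one, `A` a unit, `A - 1 = x y`:
`T' = L((c'-y)/A) U(x) L(y) U((b'-x)/A)`, `U(z) = [[1, z], [0, 1]]`, `L(z) = [[1, 0], [z, 1]]`. With `x = p^(r+t)`,
`y = (A - 1)/x`, all four entries are divisible by `p^(r+t)`, since `M - r' ≥ 2(r+t)`. Back in the basis `P, Q`:
`B U(z) B⁻¹ = U(z/c)`, and `z/c` is divisible by `p^r`; `B L(z) B⁻¹` is the second matrix of the hypotheses with
`p^r m = - z/c` (`v ↦ v + μ(v) P₂`, `μ(v₁ P + v₂ Q) = p^r m (a v₂ - c v₁)`). Reduce modulo `p^k` (`m ∈ ℤ_p` may be replaced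
by an integer). (Instead of `ℤ_p` one can compute modulo a high power of `p`.) -/
def S_PAD : Prop := ∀ (p k r t : ℕ) (a c : ℤ) (X : ℤ → ℤ → ℤ → ℤ → Prop), p.Prime →
  ¬ (p : ℤ) ^ t ∣ c →
  (∀ a b c d a' b' c' d' : ℤ, X a b c d → X a' b' c' d' →
    X (a * a' + b * c') (a * b' + b * d') (c * a' + d * c') (c * b' + d * d')) →
  (∀ a b c d a' b' c' d' : ℤ, X a b c d → (p : ℤ) ^ k ∣ a - a' → (p : ℤ) ^ k ∣ b - b' →
    (p : ℤ) ^ k ∣ c - c' → (p : ℤ) ^ k ∣ d - d' → X a' b' c' d') →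
  (∀ m : ℤ, X 1 ((p : ℤ) ^ r * m) 0 1) →
  (∀ m : ℤ, X (1 - (p : ℤ) ^ r * m * a * c) ((p : ℤ) ^ r * m * a ^ 2) (-((p : ℤ) ^ r * m * c ^ 2))
    (1 + (p : ℤ) ^ r * m * a * c)) →
  ∀ α β γ δ : ℤ, (p : ℤ) ^ k ∣ α * δ - β * γ - 1 → (p : ℤ) ^ (2 * r + 3 * t) ∣ α - 1 →
    (p : ℤ) ^ (2 * r + 3 * t) ∣ β → (p : ℤ) ^ (2 * r + 3 * t) ∣ γ →
    (p : ℤ) ^ (2 * r + 3 * t) ∣ δ - 1 → X α β γ δ

/-- **CON** (from a unipotent element and no stable cyclic subgroup to a congruence subgroup). Proof. Given `k`, put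
`K = k + s + t + 2s + 2`, `u` from the hypothesis, `r, P, Q` from TRV, `k' = K - r ≥ k + t`. The element `p^(k'-t) P` has order
`p^t`, so `ρ g (p^(k'-t) P)` is not a multiple of it for some `g`; `ρ g P = a P + c Q`, so `¬ p^t ∣ c`; `ρ g Q = b P + d Q`,
`δ = a d - b c` is a unit modulo `p` (`g` is invertible). `X` = the matrices `Rl ρ 1 P Q`; it has the first two properties
(`Rl.mul`, `Rl.congr`), contains `U(p^r m)` (powers of `u`; `m ≥ 0` suffices modulo `p^k'`), and `g u^j g⁻¹` is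
`v ↦ v + j p^r δ⁻¹ (a v₂ - c v₁) (a P + c Q)` modulo `p^k'` (`v = v₁ P + v₂ Q`, `(g⁻¹ v)₂ = δ⁻¹ (a v₂ - c v₁)`); take `j ≡ δ m`.
PAD gives `AllN ρ (p^(2r+3t)) (p^k') 1 P Q`. Finally pass to the level `k` and the basis `p^(k'-k) P`, `p^(k'-k) Q`
of `V[p^k]`: replace `d` by a solution `d'` of `a d' - b c ≡ 1` modulo `p^k'` (`a ≡ 1` modulo `p`, `t ≥ 1`); then
`d' ≡ 1` modulo `p^min(M, k')`, `d' ≡ d` modulo `p^k`; and `r ≤ s`. -/
def S_CON : Prop := S_TRV → S_PAD → ∀ (G V : Type) [Group G] [AddCommGroup V] (ρ : G → V →+ V),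
  Rep ρ → ∀ p s t : ℕ, p.Prime →
  (∀ K : ℕ, ∃ u : G, (∀ R : V, ((p : ℤ) ^ K) • R = 0 → ρ u (ρ u R - R) = ρ u R - R) ∧
    ∃ P : V, ((p : ℤ) ^ (s + 1)) • P = 0 ∧ ρ u P ≠ P) →
  (∀ c : V, ((p : ℤ) ^ t) • c = 0 → ((p : ℤ) ^ (t - 1)) • c ≠ 0 →
    ∃ g : G, ρ g c ∉ AddSubgroup.zmultiples c) →
  ∀ k : ℕ, ∃ P Q : V, Bas (p ^ k) P Q ∧ AllN ρ (p ^ (2 * s + 3 * t)) (p ^ k) 1 P Q

/-- **CMT** (commutators). Proof. If `σ` realises `D = diag(A, A')`, `A A' ≡ 1`, and `τ` realises `U(y)`, then `σ τ σ⁻¹ τ⁻¹`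
realises `U((A² - 1) y)` modulo `p^k`, and it lies in the commutator subgroup. First part: `A = 1 + p^M`, `A' ≡ A⁻¹` modulo
`p^k` with `A' ≡ 1` modulo `p^M`; `A² - 1 = p^M (2 + p^M)`; for `p^(2M+1) ∣ x` solve `p^M (2 + p^M) y ≡ x` modulo `p^k` with
`p^M ∣ y` (`p` odd: `2 + p^M` is a unit; `p = 2`: `2 + 2^M = 2 (1 + 2^(M-1))`, `M ≥ 2`). Second part (`p ≥ 5`): `A = 2`,
`A² - 1 = 3` is a unit. The same for `L`. -/
def S_CMT : Prop := ∀ (G V : Type) [Group G] [AddCommGroup V] (ρ : G → V →+ V), Rep ρ →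
  ∀ (p k : ℕ) (P Q : V), p.Prime → Bas (p ^ k) P Q →
  (∀ M : ℕ, 2 ≤ M → AllN ρ (p ^ M) (p ^ k) 1 P Q → ∀ x : ℤ, (p : ℤ) ^ (2 * M + 1) ∣ x →
    RS ρ 1 P Q 1 x 0 1 ∧ RS ρ 1 P Q 1 0 x 1) ∧
  (5 ≤ p → AllN ρ 1 (p ^ k) 1 P Q → ∀ x : ℤ, RS ρ 1 P Q 1 x 0 1 ∧ RS ρ 1 P Q 1 0 x 1)

/-- **KIL** (exponents). Proof. `σ` acts on `V[p] ≅ 𝔽_p²` by an element of `GL₂(𝔽_p)`, a group of order
`(p² - 1)(p² - p)` (`Matrix.card_GL_field`), so `τ = σ^((p²-1)(p²-p))` is trivial on `V[p]`. If `τ'` is trivial on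
`V[p^j]`, `j ≥ 1`, and `R ∈ V[p^(j+1)]` then `X = τ' R - R` satisfies `p X = 0`, so `τ' X = X`, `τ'^p R = R + p X = R`. -/
def S_KIL : Prop := ∀ (G V : Type) [Group G] [AddCommGroup V] (ρ : G → V →+ V), Rep ρ →
  ∀ (p k : ℕ), p.Prime → ∀ (σ : G) (R : V), ((p : ℤ) ^ k) • R = 0 →
  ρ (σ ^ ((p ^ 2 - 1) * (p ^ 2 - p) * p ^ k)) R = R

/-- **DET** (the determinant of a commutator). Proof. For `n ≥ 1` and a basis the determinant modulo `n` is a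
homomorphism from `G` to the units of `ℤ/n`; it is trivial on the commutator subgroup. -/
def S_DET : Prop := ∀ (G V : Type) [Group G] [AddCommGroup V] (ρ : G → V →+ V), Rep ρ →
  ∀ (n : ℕ) (P Q : V) (a b c d : ℤ), 1 ≤ n → Bas n P Q → ∀ σ ∈ commutator G,
  ρ σ P = a • P + c • Q → ρ σ Q = b • P + d • Q → (n : ℤ) ∣ a * d - b * c - 1

/-- **ELE** (elementary matrices generate). Proof. `k = 0`: `P = Q = 0`, take `σ = 1`. `M = 0`: as `Gen.all_of`. `M ≥ 1`,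
`k ≥ 1`: `a ≡ 1` modulo `p^(2M)`, `a w ≡ 1` modulo `p^k`, `x = p^M`, `a - 1 = x y`: the matrix is
`L((c-y)w) U(x) L(y) U((b-x)w)` modulo `p^k`. -/
def S_ELE : Prop := ∀ (G V : Type) [Group G] [AddCommGroup V] (ρ : G → V →+ V), Rep ρ →
  ∀ (p k M m : ℕ) (P Q : V), p.Prime → Bas (p ^ k) P Q →
  (∀ x : ℤ, (p : ℤ) ^ M ∣ x → RS ρ m P Q 1 x 0 1) →
  (∀ x : ℤ, (p : ℤ) ^ M ∣ x → RS ρ m P Q 1 0 x 1) → AS ρ (p ^ (2 * M)) (p ^ k) m P Q

/-- **CPR** (coprime levels). Proof: that of `Gen.All.coprime`. -/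
def S_CPR : Prop := ∀ (G V : Type) [Group G] [AddCommGroup V] (ρ : G → V →+ V), Rep ρ →
  ∀ (N n n' m : ℕ) (P Q P' Q' : V), Bas n P Q → Bas n' P' Q' → AS ρ N n (n' * m) P Q →
  AS ρ N n' (n * m) P' Q' → AS ρ N (n * n') m (P + P') (Q + Q')

/-- **STP** (making an element trivial at the other primes). Proof. Let `σ` in the commutator subgroup realise `U(x)` on
`V[p^k]`. On `V[m₂]` it has a matrix `[[a, b], [c, d]]` of determinant one (DET); let `δ` in the commutator subgroup realise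
`[[d, -b], [-c, a]]` on `V[m₂]`, trivial on `V[p^k m₁]`. `σ' = σ δ` is trivial on `V[m₂]` and is `U(x)` on `V[p^k]`. `σ'^e` is
trivial on `V[m₁]` and `V[m₂]`, so on `V[m₁ m₂]` (coprime), and is `U(e x)` on `V[p^k]`. The same for `L`. -/
def S_STP : Prop := S_DET → ∀ (G V : Type) [Group G] [AddCommGroup V] (ρ : G → V →+ V), Rep ρ →
  ∀ (p k m₁ m₂ e : ℕ) (P Q P₂ Q₂ : V), p.Prime → Nat.Coprime m₁ m₂ → 1 ≤ m₂ →
  (∀ (σ : G) (R : V), (m₁ : ℤ) • R = 0 → ρ (σ ^ e) R = R) →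
  Bas m₂ P₂ Q₂ → AS ρ 1 m₂ (p ^ k * m₁) P₂ Q₂ → Bas (p ^ k) P Q →
  (∀ x : ℤ, RS ρ 1 P Q 1 x 0 1 → RS ρ (m₁ * m₂) P Q 1 (e * x) 0 1) ∧
  (∀ x : ℤ, RS ρ 1 P Q 1 0 x 1 → RS ρ (m₁ * m₂) P Q 1 0 (e * x) 1)

/-- **BIG** (the large primes, by descent from the largest one). Proof. Strong induction on `n₂`. `n₂ = 1`: `P = Q = 0`,
`σ = 1`. Otherwise let `q` be the smallest prime factor of `n₂`, `n₂ = q^k n₂'`, `q ∤ n₂'`, `k ≥ 1`. By induction (for `n₂'` and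
`n₁ q^k`) there is a basis of `V[n₂']` with `AS ρ 1 n₂' (q^k n₁)`. Let `(P, Q)` be the basis of `V[q^k]` of the hypothesis;
CMT (second part) gives `U(x)`, `L(x)` in the commutator subgroup. By KIL, `σ^e` is trivial on `V[n₁]`, `e` = the product of
`(p² - 1)(p² - p) p^v` over the primes `p` dividing `n₁` exactly `v` times; `e` is prime to `q`, since `p < q`, so `p + 1 < q`
(`q ≥ 7` is odd). STP (`p := q`, `m₁ = n₁`, `m₂ = n₂'`) gives `U(e x)`, `L(e x)` trivial on `V[n₁ n₂']`, so all `U(x)`, `L(x)`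
(`e` is invertible modulo `q^k`; `RS` depends on `x` modulo `q^k` only). ELE with `M = 0` gives
`AS ρ 1 (q^k) (n₁ n₂')`, and CPR gives `AS ρ 1 (q^k n₂') n₁`. (Bases: `Bas.coprime`.) -/
def S_BIG : Prop := S_DET → S_CMT → S_KIL → S_ELE → S_CPR → S_STP →
  ∀ (G V : Type) [Group G] [AddCommGroup V] (ρ : G → V →+ V), Rep ρ → ∀ P₀ : ℕ, 5 ≤ P₀ →
  (∀ p : ℕ, p.Prime → P₀ < p → ∀ k : ℕ, ∃ P Q : V, Bas (p ^ k) P Q ∧ AllN ρ 1 (p ^ k) 1 P Q) →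
  ∀ n₂ n₁ : ℕ, 1 ≤ n₂ → 1 ≤ n₁ → (∀ p q : ℕ, p.Prime → q.Prime → p ∣ n₁ → q ∣ n₂ → p < q) →
  (∀ q : ℕ, q.Prime → q ∣ n₂ → P₀ < q) → ∃ P Q : V, Bas n₂ P Q ∧ AS ρ 1 n₂ n₁ P Q

/-- **GRP** (all levels). Proof. Let `W = ∏_{p ≤ P₀} (p² - 1)(p² - p)`, `M' = 2M + 1 + W`, `N = ∏_{p ≤ P₀} p^(2M')` (`p` prime),
or `N = (P₀!)^(2M')`. Given `n`, write `n = n₁ n₂`, the prime factors of `n₁` are `≤ P₀`, those of `n₂` are `> P₀`. BIG gives
`AS ρ 1 n₂ n₁` (and so, for every factor `p^k`, `k ≥ 1`, of `n₁` with `n₁ = p^k m₁`, `p ∤ m₁`, it can be used in STP). Let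
`(P, Q)` be the basis of `V[p^k]` of the hypothesis; CMT (first part): `U(x)`, `L(x)` in the commutator subgroup for
`p^(2M+1) ∣ x`. By KIL `σ^e` is trivial on `V[m₁]`, `e` = product of `(q² - 1)(q² - q) q^v` over the primes `q ≠ p` dividing
`m₁`; the power of `p` in `e` divides `W`, so it is at most `p^W`. So every `x` divisible by `p^(M')` is `≡ e x'` modulo `p^k`
with `p^(2M+1) ∣ x'`. STP, ELE: `AS ρ (p^(2M')) (p^k) (m₁ n₂)`, so `AS ρ N (p^k) (n / p^k)`. CPR (induction over the factors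
`p^k` of `n₁`, `Nat.recOnPosPrimePosCoprime`, as in `Gen.all_levels`) gives `AS ρ N n₁ n₂`, and once more with `AS ρ 1 n₂ n₁`
(so `AS ρ N n₂ n₁`): `AS ρ N n 1`; the commutator subgroup is contained in `G`. -/
def S_GRP : Prop := S_DET → S_CMT → S_KIL → S_ELE → S_CPR → S_STP → S_BIG →
  ∀ P₀ M : ℕ, 5 ≤ P₀ → 2 ≤ M → ∃ N : ℕ, 1 ≤ N ∧
  ∀ (G V : Type) [Group G] [AddCommGroup V] (ρ : G → V →+ V), Rep ρ →
  (∀ p : ℕ, p.Prime → P₀ < p → ∀ k : ℕ, ∃ P Q : V, Bas (p ^ k) P Q ∧ AllN ρ 1 (p ^ k) 1 P Q) →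
  (∀ p : ℕ, p.Prime → p ≤ P₀ → ∀ k : ℕ, ∃ P Q : V, Bas (p ^ k) P Q ∧
    AllN ρ (p ^ M) (p ^ k) 1 P Q) →
  ∀ n : ℕ, 1 ≤ n → ∃ P Q : V, Bas n P Q ∧ AllN ρ N n 1 P Q

end Pool.Agent.P8H9.UO
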