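import Mathlib
import Pool.Agent.Q19.SU.Tau
import Pool.Agent.Q19.SU.AllN
import Pool.Agent.P8H9.UO.StmG

/-!
# Project UO (helper9): statement of the package TAU
-/

set_option autoImplicit false

namespace Pool.Agent.P8H9.UO

open Pool.Agent.Q19.SU.Gen NumberField IsDedekindDomain WeierstrassCurve
open Pool.Agent.Q19.SU Pool.Agent.Y673.Loc Pool.Agent.Y673.SL Pool.Agent.Q19.JL
open Pool.Agent.TH876.Loc (Pr)

open scoped Classical in
/-- **TAU** (an element of the inertia group at a pole of order `n`, `¬ p^(s+1) ∣ n`). Proof: that of `Q19.SU.tau_of`, with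
`n = 1`, `s = 0`. Put `k' = max k (s+1)`, `N = p^k'`. `Q19.SU.setup` has to be generalised to `adv K v (jv A B) = - n`:
it gives `2H = n |I|` (see `N495.TS.no_line_n`, where this is done inside the proof). Let `p^a` be the order of a Sylow
subgroup `J` of the inertia group `I`, `|I| = p^a m'`. By `pos_level` (as in `tau_of`; for `p = 2` take a point of order two
with `x = e + η`, which has level `H`, `z_val`) there is `P₁ ∈ V[p]` of positive level; take `P ∈ V[p^(s+1)]`
with `p^s P = P₁` (`div_ep`); let `α` be its level. `2H ∣ p^(s+1) α` (`LV.tors`), `¬ 2H ∣ p^s α` (`LV.mult`: `p^s P` has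
positive level). Suppose that for all `σ ∈ J`, `χ_σ σ P = P`, where `χ_σ` is the sign of `unip3`. Then the first coordinate
of `P` is fixed by `J` and `e` too (`he_of`). If `α < H`: `p^a ∣ α` (`fix_dvd`), `α = p^a α'`, so `n m' ∣ p^(s+1) α'`; as
`p^(s+1) ∤ n`, `p ∤ m'` this implies `n m' ∣ p^s α'`, so `2H ∣ p^s α`: contradiction. If `α = H` then `p = 2`, `s = 0`
(`2H ∣ p^(s+1) H`, `¬ 2H ∣ p^s H`), so `2 P = 0`, `x = e ± η` is fixed by `J`, and `H` is divisible by `2^a` (valuation of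
`η/(3e)`), so `2 ∣ n m'`: contradiction. So some `σ ∈ J` has `χ σ P ≠ P`; `unip3` gives the second property; transfer to
`act A B τ` as in `tau_of`. -/
def S_TAU : Prop := ∀ (K : Type) [Field K] [NumberField K] (A B : K), 4 * A ^ 3 + 27 * B ^ 2 ≠ 0 →
  ∀ (p s k n : ℕ) (v : Pr K), p.Prime → (adv K v).v 2 = 0 → (adv K v).v 3 = 0 →
  (adv K v).v (p : K) = 0 → 0 < n → (adv K v).v (jv A B) = -n → ¬ p ^ (s + 1) ∣ n →
  ∃ (τ : AlgebraicClosure K ≃ₐ[K] AlgebraicClosure K) (χ : ℤ), (χ = 1 ∨ χ = -1) ∧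
    (∀ R : EP A B, ((p : ℤ) ^ k) • R = 0 →
      χ • act A B τ (χ • act A B τ R - R) = χ • act A B τ R - R) ∧
    ∃ P : EP A B, ((p : ℤ) ^ (s + 1)) • P = 0 ∧ χ • act A B τ P ≠ P

end Pool.Agent.P8H9.UO
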