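import Mathlib
import Pool.Agent.P8H9.TQ.Span
import Pool.Agent.P8H9.UO.StmT

/-!
# Bases of the torsion of an elliptic curve at all levels (helper9)
-/

set_option autoImplicit false
set_option linter.unusedSectionVars false
set_option linter.style.haveILetI false

namespace Pool.Agent.P8H9.UO

open WeierstrassCurve NumberField IsDedekindDomain Pool.Agent.H901R3.MS Pool.Agent.Y673.Loc
open Pool.Agent.H691R3 Pool.Agent.W223.AK Pool.Agent.Y733.LS
open Pool.Agent.W275.FM Pool.Agent.Y673.SL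
open Pool.Agent.Q19.SU.Gen Pool.Agent.Q19.SU

open scoped Classical in
theorem bas_prime {K : Type} [Field K] [NumberField K] {A B : K}
    (hD : 4 * A ^ 3 + 27 * B ^ 2 ≠ 0) {q : ℕ} (hq : q.Prime) : ∃ P Q : EP A B, Bas q P Q := by
  haveI : CharZero (AlgebraicClosure K) :=
    charZero_of_injective_algebraMap (algebraMap K (AlgebraicClosure K)).injective
  obtain ⟨hfin, hcard⟩ := Mul.tor (AlgebraicClosure K) _ _ (Pool.Agent.Y673.FM.disc_ca hD) q hq.one_le
  set e := eqv A B (AlgebraicClosure K) with he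
  set S : Set (EP A B) := {P | q • P = 0} with hS
  have himg : e '' S = {P | q • P = 0} := by
    ext P
    constructor
    · rintro ⟨R, hR, rfl⟩
      show q • e R = 0
      rw [← map_nsmul, (show q • R = 0 from hR), map_zero]
    · intro hP
      refine ⟨e.symm P, ?_, AddEquiv.apply_symm_apply _ _⟩
      show q • e.symm P = 0
      rw [← map_nsmul, (show q • P = 0 from hP), map_zero]
  have hScard : q ^ 2 ≤ S.ncard := by
    rw [← Set.ncard_image_of_injective S e.injective, himg]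
    exact hcard
  have h2 := hq.two_le
  obtain ⟨P, hP, hP0⟩ : ∃ P ∈ S, P ≠ 0 := by
    by_contra hcon
    push Not at hcon
    have h1 : S ⊆ {0} := fun P hP => hcon P hP
    have h3 := Set.ncard_le_ncard h1 (Set.finite_singleton _)
    rw [Set.ncard_singleton] at h3
    nlinarith
  obtain ⟨Q, hQ, hPQ⟩ : ∃ Q ∈ S, Q ∉ AddSubgroup.zmultiples P := by
    by_contra hcon
    push Not at hcon
    have h1 : S ⊆ (AddSubgroup.zmultiples P : Set (EP A B)) := fun Q hQ => hcon Q hQ
    have hPo : addOrderOf P ∣ q := addOrderOf_dvd_of_nsmul_eq_zero hP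
    have hPo2 : addOrderOf P ≤ q := Nat.le_of_dvd hq.pos hPo
    have hfinP : (AddSubgroup.zmultiples P : Set (EP A B)).Finite := by
      rw [AddSubgroup.coe_zmultiples]
      have hfo : IsOfFinAddOrder P := isOfFinAddOrder_iff_nsmul_eq_zero.2 ⟨q, hq.pos, hP⟩
      have := (finite_zmultiples (a := P)).2 hfo
      exact this
    have h3 := Set.ncard_le_ncard h1 hfinP
    have h4 : (AddSubgroup.zmultiples P : Set (EP A B)).ncard = addOrderOf P := by
      rw [← Nat.card_coe_set_eq]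
      exact Nat.card_zmultiples P
    rw [h4] at h3
    nlinarith
  obtain ⟨h6, h7⟩ := basis hD hq hP hQ hP0 hPQ
  have hP' : q • P = 0 := hP
  have hQ' : q • Q = 0 := hQ
  refine ⟨P, Q, ?_, ?_, ?_, h7⟩
  · rw [natCast_zsmul]; exact hP'
  · rw [natCast_zsmul]; exact hQ'
  · intro R hR
    rw [natCast_zsmul] at hR
    exact h6 R hR

open scoped Classical in
theorem bas_all {K : Type} [Field K] [NumberField K] {A B : K}
    (hD : 4 * A ^ 3 + 27 * B ^ 2 ≠ 0) (n : ℕ) (hn : 1 ≤ n) : ∃ P Q : EP A B, Bas n P Q := by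
  induction n using Nat.recOnPosPrimePosCoprime with
  | prime_pow p k hp hk =>
    obtain ⟨k, rfl⟩ : ∃ k', k = k' + 1 := ⟨k - 1, by omega⟩
    obtain ⟨P₁, Q₁, hB₁⟩ := bas_prime hD hp
    obtain ⟨P, hP⟩ := div_ep hD hp k hB₁.hP
    obtain ⟨Q, hQ⟩ := div_ep hD hp k hB₁.hQ
    have hPk : ((p : ℤ) ^ (k + 1)) • P = 0 := by
      rw [pow_succ', mul_zsmul, hP, hB₁.hP]
    have hQk : ((p : ℤ) ^ (k + 1)) • Q = 0 := by
      rw [pow_succ', mul_zsmul, hQ, hB₁.hQ]
    exact ⟨P, Q, Bas.lift k hPk hQk (by rw [hP, hQ]; exact hB₁)⟩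
  | zero => omega
  | one => exact ⟨0, 0, bas_one⟩
  | coprime a b ha hb hab iha ihb =>
    obtain ⟨P, Q, h⟩ := iha (by omega)
    obtain ⟨P', Q', h'⟩ := ihb (by omega)
    exact ⟨P + P', Q + Q', h.coprime hab h'⟩

open scoped Classical in
theorem rep {K : Type} [Field K] [NumberField K] {A B : K} (hD : 4 * A ^ 3 + 27 * B ^ 2 ≠ 0) :
    Rep (fun σ : AlgebraicClosure K ≃ₐ[K] AlgebraicClosure K => act A B σ) :=
  ⟨fun σ τ v => act_mul A B σ τ v, fun v => act_one A B v, fun n hn => bas_all hD n hn⟩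

end Pool.Agent.P8H9.UO
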