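import Mathlib
import Pool.Agent.P8H9.UO.StmT

/-!
# An element of the inertia group at a pole of any order (helper9)
-/

set_option autoImplicit false

namespace Pool.Agent.P8H9.UO

open WeierstrassCurve NumberField IsDedekindDomain Pool.Agent.H901R3.MS Pool.Agent.Y673.Loc
open Pool.Agent.Y673.Loc.ZV Pool.Agent.W275.FM Pool.Agent.W275.FMK Pool.Agent.Y673.FM
open Pool.Agent.Q19.SU
open Pool.Agent.TH876.Loc (Pr)

section el
variable {K : Type} [Field K] [NumberField K] {L : Type} [Field L] [NumberField L] [Algebra K L]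
  [DecidableEq L]

/-- an element of the inertia group which moves a point of order `p ^ (s + 1)`, up to signs -/
theorem el_n [IsGalois K L] (w : HeightOneSpectrum (𝓞 L)) {H : ℤ} {e η : L}
    (D : Dt (adv L w) 0 H e η) {A B : K} (hA : algebraMap K L A = cA e η)
    (hB : algebraMap K L B = cB e η) {n : ℕ} (hn0 : 0 < n)
    (hH : 2 * H = n * Nat.card (w.asIdeal.inertia (L ≃ₐ[K] L))) {p s : ℕ} (hp : p.Prime)
    (hns : ¬ p ^ (s + 1) ∣ n) {P : Pt (cA e η) (cB e η)} (hP : p ^ (s + 1) • P = 0) {a₁ : ℤ}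
    (ha₁ : 0 < a₁) (hl : LV (adv L w) 0 H e η (p ^ s • P) a₁) :
    ∃ σ : L ≃ₐ[K] L, In (adv L w) (rh σ) ∧
      ∃ (ha : rh σ (cA e η) = cA e η) (hb : rh σ (cB e η) = cB e η),
        ac two_ne_zero (rh σ) ha hb P ≠ P ∧ ac two_ne_zero (rh σ) ha hb P ≠ -P := by
  by_contra hcon
  push Not at hcon
  have hH1 := D.dat.hH
  obtain ⟨α, hα⟩ := LV.total D P
  have hα0 := hα.nonneg D
  have hαpos : 0 < α := by
    rcases eq_or_lt_of_le hα0 with h | h
    · exfalso
      rw [← h] at hα
      have h1 : p ^ s • P ∈ T0 D := (T0 D).nsmul_mem hα _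
      have h2 := LV.unique D h1 hl
      omega
    · exact h
  have htor := LV.tors D hα hαpos hP
  obtain ⟨⟨a₂, g1, g2⟩, -⟩ := LV.mult D hα hαpos (p ^ s)
  have hnd : ¬ 2 * H ∣ ((p ^ s : ℕ) : ℤ) * α := by
    intro hd
    have h3 : RR H (((p ^ s : ℕ) : ℤ) * α) 0 := ⟨le_rfl, by omega, Or.inl (by rwa [sub_zero])⟩
    have h4 := RR.unique hH1 g2 h3
    have h5 := LV.unique D g1 hl
    omega
  have hαH := hα.le D
  obtain ⟨I, hI⟩ : ∃ I, I = w.asIdeal.inertia (L ≃ₐ[K] L) := ⟨_, rfl⟩
  rw [← hI] at hH
  have : Finite (L ≃ₐ[K] L) := inferInstance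
  have hIc : 0 < Nat.card I := Nat.card_pos
  rcases P with _ | ⟨x, y, hn⟩
  · have : α = 0 := hα
    omega
  have hzfix : ∀ σ ∈ I, σ ((x - e) / (3 * e)) = (x - e) / (3 * e) := by
    intro σ hσ
    have ha : rh σ (cA e η) = cA e η := by rw [← hA]; exact σ.commutes A
    have hb : rh σ (cB e η) = cB e η := by rw [← hB]; exact σ.commutes B
    have hin : In (adv L w) (rh σ) := inertia_In K L w (by rw [← hI]; exact hσ)
    have he : rh σ e = e := (he_of D hin ha hb).1
    have hns' : (CV (cA e η) (cB e η)).toAffine.Nonsingular x (-y) := by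
      rw [nonsingular_iff D.disc] at hn ⊢
      unfold Eqn at hn ⊢
      rw [neg_sq]; exact hn
    have h4 : σ x = x := by
      by_cases h3 : ac two_ne_zero (rh σ) ha hb (Affine.Point.some x y hn :
          Pt (cA e η) (cB e η)) = Affine.Point.some x y hn
      · rw [ac_some, Affine.Point.some.injEq] at h3
        exact h3.1
      · have h3 := hcon σ hin ha hb h3
        rw [ac_some, neg_some' hn hns', Affine.Point.some.injEq] at h3
        exact h3.1
    have h5 : σ e = e := he
    rw [map_div₀, map_sub, map_mul, map_ofNat, h4, h5]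
  have hdvd := fix_dvd K L w I (by rw [← hI]) _ hzfix
  rcases hαH.lt_or_eq with hlt | heq
  · have hval : (adv L w).E α ((x - e) / (3 * e)) :=
      (NN.E (w := adv L w) (c := 0) (H := H) hα hαpos hlt).cast (by ring)
    rw [hval.2] at hdvd
    obtain ⟨α', hα'⟩ := hdvd
    apply hnd
    -- `n ∣ p ^ s * α'`
    have hIz : ((Nat.card I : ℕ) : ℤ) ≠ 0 := by exact_mod_cast hIc.ne'
    have h1 : (n : ℤ) ∣ ((p ^ (s + 1) : ℕ) : ℤ) * α' := by
      obtain ⟨c, hc⟩ := htor
      refine ⟨c, ?_⟩
      apply mul_left_cancel₀ hIz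
      rw [hα', hH] at hc
      linear_combination hc
    obtain ⟨ν, n', hn', hnn⟩ := Nat.exists_eq_pow_mul_and_not_dvd hn0.ne' p hp.ne_one
    have hνs : ν ≤ s := by
      by_contra hcon2
      apply hns
      rw [hnn]
      exact (pow_dvd_pow p (by omega)).mul_right n'
    have h2 : (n' : ℤ) ∣ α' := by
      have h3 : (n' : ℤ) ∣ ((p ^ (s + 1) : ℕ) : ℤ) * α' := by
        refine dvd_trans ?_ h1
        rw [hnn]
        push_cast
        exact Dvd.intro_left _ rfl
      have hcop : IsCoprime (n' : ℤ) ((p ^ (s + 1) : ℕ) : ℤ) := by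
        push_cast
        apply IsCoprime.pow_right
        rw [Int.isCoprime_iff_gcd_eq_one]
        exact ((Nat.Prime.coprime_iff_not_dvd hp).2 hn').symm
      exact hcop.dvd_of_dvd_mul_left h3
    obtain ⟨c, hc⟩ := h2
    rw [hH, hα', hc, hnn]
    refine ⟨(p : ℤ) ^ (s - ν) * c, ?_⟩
    have h5 : (p : ℤ) ^ s = (p : ℤ) ^ ν * (p : ℤ) ^ (s - ν) := by
      rw [← pow_add]
      congr 1
      omega
    push_cast
    rw [h5]
    ring
  · subst heq
    -- `p = 2`, `s = 0`
    have hp2 : p = 2 := by
      obtain ⟨c, hc⟩ := htor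
      have h1 : ((p ^ (s + 1) : ℕ) : ℤ) = 2 * c := by
        have h2 : α * (((p ^ (s + 1) : ℕ) : ℤ) - 2 * c) = 0 := by linear_combination hc
        rcases mul_eq_zero.1 h2 with h3 | h3
        · omega
        · omega
      have h2 : 2 ∣ p ^ (s + 1) := by
        have : (2 : ℤ) ∣ ((p ^ (s + 1) : ℕ) : ℤ) := ⟨c, h1⟩
        exact_mod_cast this
      exact ((Nat.prime_dvd_prime_iff_eq Nat.prime_two hp).1
        (Nat.prime_two.dvd_of_dvd_pow h2)).symm
    subst hp2
    have hs0 : s = 0 := by
      by_contra hs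
      apply hnd
      obtain ⟨s', rfl⟩ : ∃ s', s = s' + 1 := ⟨s - 1, by omega⟩
      refine ⟨(2 : ℤ) ^ s', ?_⟩
      push_cast
      ring
    subst hs0
    have h2P : (2 : ℕ) • (Affine.Point.some x y hn : Pt (cA e η) (cB e η)) = 0 := by
      simpa using hP
    have hz := z_val D
    -- the point has order two
    have hy : y = 0 := by
      have hns' : (CV (cA e η) (cB e η)).toAffine.Nonsingular x (-y) := by
        rw [nonsingular_iff D.disc] at hn ⊢
        unfold Eqn at hn ⊢
        rw [neg_sq]; exact hn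
      have h3 : (Affine.Point.some x y hn : Pt (cA e η) (cB e η)) =
          -(Affine.Point.some x y hn : Pt (cA e η) (cB e η)) := by
        rw [two_nsmul] at h2P
        exact eq_neg_of_add_eq_zero_left h2P
      rw [neg_some' hn hns', Affine.Point.some.injEq] at h3
      have h4 : y = -y := h3.2
      have h5 : (2 : L) * y = 0 := by linear_combination h4
      exact (mul_eq_zero.1 h5).resolve_left two_ne_zero
    have hE := (nonsingular_iff D.disc).1 hn
    unfold Eqn cA cB at hE
    rw [hy] at hE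
    have hroot : (x + 2 * e) * ((x - e - η) * (x - e + η)) = 0 := by linear_combination -hE
    have h3e := D.h3e
    have hαE : (adv L w).E α ((x - e) / (3 * e)) := by
      rcases mul_eq_zero.1 hroot with h | h
      · exfalso
        have h1 : (x - e) / (3 * e) = -1 := by
          rw [div_eq_iff h3e]
          linear_combination h
        have h2 : NN (adv L w) 0 α ((x - e) / (3 * e)) 0 :=
          NN.bot_of_E (n := 0) (by rw [h1]; exact E_one.neg) (by norm_num)
        have h3 := NN.unique hH1 hα h2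
        omega
      · rcases mul_eq_zero.1 h with h | h
        · have h1 : x - e = η := by linear_combination h
          rw [h1]
          exact hz
        · have h1 : x - e = -η := by linear_combination h
          rw [h1, neg_div]
          exact hz.neg
    rw [hαE.2] at hdvd
    obtain ⟨h', hh'⟩ := hdvd
    have hIz : ((Nat.card I : ℕ) : ℤ) ≠ 0 := by exact_mod_cast hIc.ne'
    have h1 : (n : ℤ) = 2 * h' := by
      apply mul_left_cancel₀ hIz
      linear_combination -hH + 2 * hh'
    apply hns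
    have : (2 : ℤ) ∣ (n : ℤ) := ⟨h', h1⟩
    have h2 : 2 ∣ n := by exact_mod_cast this
    simpa using h2

end el

end Pool.Agent.P8H9.UO
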