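import Mathlib
import Pool.Agent.P8H9.TQ.Fin
import Pool.Agent.P8H9.UO.StmT
import Pool.Agent.Q237.US.Fin
import Pool.Agent.N495.TS.SerreA
import Pool.Agent.N524.TS.SERRE

/-!
# The large primes (helper9; from the theorem of helper237 and the lemma of Serre, helper495 and helper524)
-/

set_option autoImplicit false
set_option linter.unusedSectionVars false

namespace Pool.Agent.P8H9.UO

open WeierstrassCurve NumberField IsDedekindDomain Pool.Agent.H901R3.MS Pool.Agent.Y673.Loc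
open Pool.Agent.Y673.Loc.ZV Pool.Agent.W275.FM Pool.Agent.W275.FMK Pool.Agent.Y673.FM
open Pool.Agent.H691R3 Pool.Agent.W223.AK Pool.Agent.Y733.LS Pool.Agent.TH942
open Pool.Agent.Q19.SU Pool.Agent.P8H9.TQ Pool.Agent.Q19.SU.Gen
open Pool.Agent.Y673.SL (HasSL)
open Pool.Agent.Q237.LT (wa fa mem_wa)

theorem rad_eq_fa {K : Type} [Field K] [NumberField K] (j : K) : rad j = fa j := by
  classical
  unfold rad fa
  rw [finsum_eq_sum_of_support_subset (s := wa j)]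
  · refine Finset.sum_congr rfl fun v hv => ?_
    rw [if_pos (mem_wa.1 hv)]
  · intro v hv
    rw [Function.mem_support] at hv
    rw [Finset.mem_coe, mem_wa]
    by_contra hcon
    exact hv (if_neg hcon)

open scoped Classical in
theorem large_p (β : ℝ) (hβ : 0 < β) :
    ∃ (P₀ : ℕ) (C : ℝ), 5 ≤ P₀ ∧ 0 ≤ C ∧ ∀ (K : Type) [Field K] [NumberField K] (A B : K),
    4 * A ^ 3 + 27 * B ^ 2 ≠ 0 → C * Module.finrank ℚ K ≤ ht (jj A B) →
    β * ht (jj A B) ≤ rad (jj A B) → ∀ p : ℕ, p.Prime → P₀ < p → ∀ k : ℕ,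
    ∃ P Q : EP A B, Bas (p ^ k) P Q ∧
      AllN (fun σ : AlgebraicClosure K ≃ₐ[K] AlgebraicClosure K => act A B σ) 1 (p ^ k) 1 P Q := by
  obtain ⟨c, hc0, hc⟩ : ∃ c : ℝ, 0 ≤ c ∧ c = Pool.Agent.Q237.US.c10 :=
    ⟨_, Pool.Agent.Q237.US.c10_pos.le, rfl⟩
  refine ⟨⌈6 / β⌉₊ + 5, 2 / β * c + 1, by omega, by positivity, ?_⟩
  intro K _ _ A B hD hht hrad p hp hpP k
  have h5 : 5 ≤ p := by omega
  set j := jj A B with hj
  set d : ℝ := (Module.finrank ℚ K : ℝ) with hd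
  have hd1 : 1 ≤ d := by
    have : 0 < Module.finrank ℚ K := Module.finrank_pos
    rw [hd]
    exact_mod_cast this
  have h1 : 0 ≤ 2 / β * c := by positivity
  have hht0 : 0 < ht j := by nlinarith
  have hSL : HasSL A B p := by
    by_contra hno
    have h2 := Pool.Agent.Q237.US.fa_bound' hD hp h5 hno
    rw [← rad_eq_fa, ← hj, ← hc] at h2
    have hpR : 6 / β ≤ p := by
      have h3 : 6 / β ≤ ⌈6 / β⌉₊ := Nat.le_ceil _
      have h4 : ((⌈6 / β⌉₊ : ℕ) : ℝ) ≤ p := by exact_mod_cast (by omega : ⌈6 / β⌉₊ ≤ p)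
      linarith
    have h6 : 3 / (p : ℝ) ≤ β / 2 := by
      have hp0 : (0 : ℝ) < p := by exact_mod_cast hp.pos
      rw [div_le_iff₀ hp0]
      rw [div_le_iff₀ hβ] at hpR
      nlinarith
    have h7 : 3 / (p : ℝ) * ht j ≤ β / 2 * ht j := mul_le_mul_of_nonneg_right h6 hht0.le
    have h8 : β / 2 * ((2 / β * c + 1) * d) ≤ β / 2 * ht j :=
      mul_le_mul_of_nonneg_left hht (by positivity)
    have h9 : β / 2 * ((2 / β * c + 1) * d) = d * c + β / 2 * d := by field_simp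
    have h10 : 0 < β / 2 * d := by positivity
    linarith
  obtain ⟨P, Q, hB, h⟩ := Pool.Agent.N495.TS.serre Pool.Agent.N524.TS.t_SERRE hD hp h5
    (hasSLn_of hD hp hSL) k
  refine ⟨P, Q, hB, ?_⟩
  intro a b c' d' hdet _ _ _ _
  obtain ⟨σ, g1, g2⟩ := h a b c' d' hdet
  refine ⟨σ, g1, g2, ?_⟩
  intro R hR
  have hR0 : R = 0 := by simpa using hR
  rw [hR0, map_zero]

end Pool.Agent.P8H9.UO
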