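import Mathlib
import Pool.Agent.P8H9.TQ.Fin

/-!
# A pole of small order outside a given number (helper9)
-/

set_option autoImplicit false
set_option linter.unusedSectionVars false

namespace Pool.Agent.P8H9.UO

open WeierstrassCurve NumberField IsDedekindDomain Pool.Agent.H901R3.MS Pool.Agent.Y673.Loc
open Pool.Agent.Y673.Loc.ZV Pool.Agent.W275.FM Pool.Agent.W275.FMK Pool.Agent.Y673.FM
open Pool.Agent.H691R3 Pool.Agent.W223.AK Pool.Agent.Y733.LS Pool.Agent.TH942
open Pool.Agent.Q19.SU Pool.Agent.P8H9.TQ

section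
variable {K : Type} [Field K] [NumberField K]

theorem rad_le_q {j : K} (hj0 : j ≠ 0) (q m : ℕ) (hq : 0 < q) (hm : 0 < m)
    (hV : ∀ v : Pr K, 1 < fv v j → fv v (q : K) = 1 → (m : ℤ) ∣ (adv K v).v j) :
    rad j ≤ Module.finrank ℚ K * Real.log q + 1 / m * ht j := by
  classical
  have hq0 : (q : K) ≠ 0 := Nat.cast_ne_zero.2 hq.ne'
  have hmR : (0 : ℝ) < m := by exact_mod_cast hm
  have s2 : (Function.support fun v : Pr K => Real.log (fv v (q : K))).Finite :=
    Fs_log (K := K) (z := (q : K)) hq0
  have s3 : (Function.support fun v : Pr K => Real.log (max (fv v j) 1)).Finite := Fs_ht j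
  have s4 := Fs_rad j
  have e0 : rad j = Sm (fun _ : InfinitePlace K => (0 : ℝ))
      (fun v : Pr K => if 1 < fv v j then Real.log (Nv v) else 0) := by
    unfold rad Sm
    simp only [mul_zero, Finset.sum_const_zero, zero_add]
  have e1 : Sm (fun w : InfinitePlace K => (0 : ℝ) + 1 / (m : ℝ) * Real.log (max (w.1 j) 1))
      (fun v : Pr K =>
        (-1 * Real.log (fv v (q : K)) + 1 / (m : ℝ) * Real.log (max (fv v j) 1))) =
      Module.finrank ℚ K * Real.log q + 1 / m * ht j := by
    rw [Sm_add (supp_mul _ s2) (supp_mul _ s3), Sm_mul, ht_eq_Sa]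
    have h2 : Sm (fun _ : InfinitePlace K => (0 : ℝ)) (fun v : Pr K =>
        -1 * Real.log (fv v (q : K))) = Module.finrank ℚ K * Real.log q := by
      have h5 := fin_nat (K := K) (n := q) hq.ne'
      have h8 := smul_finsum (-1 : ℝ) (fun v : Pr K => Real.log (fv v (q : K)))
      simp only [smul_eq_mul] at h8
      rw [h5] at h8
      unfold Sm
      simp only [mul_zero, Finset.sum_const_zero, zero_add]
      rw [← h8]
      ring
    rw [h2]
    rfl
  have hle : Sm (fun _ : InfinitePlace K => (0 : ℝ))
      (fun v : Pr K => if 1 < fv v j then Real.log (Nv v) else 0) ≤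
      Sm (fun w : InfinitePlace K => (0 : ℝ) + 1 / (m : ℝ) * Real.log (max (w.1 j) 1))
      (fun v : Pr K =>
        (-1 * Real.log (fv v (q : K)) + 1 / (m : ℝ) * Real.log (max (fv v j) 1))) := by
    refine Sm_mono s4 (supp_add (supp_mul _ s2) (supp_mul _ s3)) ?_ ?_
    · intro w
      have : 0 ≤ Real.log (max (w.1 j) 1) := Real.log_nonneg (le_max_right _ _)
      positivity
    · intro v
      have hN := Nv_one_lt v
      have hlN : 0 < Real.log (Nv v) := Real.log_pos hN
      have h1 : 0 ≤ Real.log (max (fv v j) 1) := Real.log_nonneg (le_max_right _ _)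
      have h1' : 0 ≤ 1 / (m : ℝ) * Real.log (max (fv v j) 1) := by positivity
      have hle1 : fv v (q : K) ≤ 1 := (fv_Na v).nat q
      have h6 : Real.log (fv v (q : K)) ≤ 0 := Real.log_nonpos (apply_nonneg _ _) hle1
      by_cases hj : 1 < fv v j
      · rw [if_pos hj]
        have hfa := Pool.Agent.Y673.Cnt.fv_adv v hj0
        have hneg : (adv K v).v j < 0 := by
          by_contra hcon
          rw [not_lt] at hcon
          rw [hfa] at hj
          have : (Nv v) ^ (-(adv K v).v j) ≤ 1 := zpow_le_one_of_nonpos₀ hN.le (by omega)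
          linarith
        obtain ⟨n, hn⟩ : ∃ n : ℕ, (adv K v).v j = -n := ⟨((adv K v).v j).natAbs, by omega⟩
        have hn1 : 1 ≤ n := by omega
        have e2 : fv v j = (Nv v) ^ n := by rw [hfa, hn, neg_neg, zpow_natCast]
        have e3 : Real.log (fv v j) = n * Real.log (Nv v) := by rw [e2, Real.log_pow]
        have hn1R : (1 : ℝ) ≤ n := by exact_mod_cast hn1
        by_cases h23 : fv v (q : K) = 1
        · have hdvd := hV v hj h23
          rw [hn, dvd_neg] at hdvd
          have hdvd' : m ∣ n := by exact_mod_cast hdvd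
          have hmn : m ≤ n := Nat.le_of_dvd (by omega) hdvd'
          have hRn : (m : ℝ) ≤ n := by exact_mod_cast hmn
          rw [max_eq_left hj.le, e3]
          have h3 : Real.log (Nv v) ≤ 1 / (m : ℝ) * (n * Real.log (Nv v)) := by
            rw [one_div, inv_mul_eq_div, le_div_iff₀ hmR]
            nlinarith
          linarith
        · have hlt : fv v (q : K) < 1 := lt_of_le_of_ne hle1 h23
          have hfa6 := Pool.Agent.Y673.Cnt.fv_adv v hq0
          have hpos : 1 ≤ (adv K v).v (q : K) := by
            by_contra hcon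
            rw [not_le] at hcon
            rw [hfa6] at hlt
            have : 1 ≤ (Nv v) ^ (-(adv K v).v (q : K)) := one_le_zpow₀ hN.le (by omega)
            linarith
          have e6 : Real.log (fv v (q : K)) = -((adv K v).v (q : K) : ℝ) * Real.log (Nv v) := by
            rw [hfa6, Real.log_zpow]
            push_cast
            ring
          have hposR : (1 : ℝ) ≤ ((adv K v).v (q : K) : ℝ) := by exact_mod_cast hpos
          rw [e6]
          nlinarith
      · rw [if_neg hj]
        linarith
  rw [e0]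
  refine hle.trans (le_of_eq ?_)
  rw [e1]

/-- **a pole prime to `q` whose order is not divisible by `m`** -/
theorem pole {j : K} (hj0 : j ≠ 0) (q m : ℕ) (hq : 0 < q) (hm : 0 < m)
    (h : Module.finrank ℚ K * Real.log q + 1 / m * ht j < rad j) :
    ∃ (v : Pr K) (n : ℕ), fv v (q : K) = 1 ∧ 0 < n ∧ (adv K v).v j = -n ∧ ¬ m ∣ n := by
  by_contra hcon
  push Not at hcon
  have h1 := rad_le_q hj0 q m hq hm (by
    intro v hv hvq
    have hN := Nv_one_lt v
    have hfa := Pool.Agent.Y673.Cnt.fv_adv v hj0
    have hneg : (adv K v).v j < 0 := by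
      by_contra hcon
      rw [not_lt] at hcon
      rw [hfa] at hv
      have : (Nv v) ^ (-(adv K v).v j) ≤ 1 := zpow_le_one_of_nonpos₀ hN.le (by omega)
      linarith
    obtain ⟨n, hn⟩ : ∃ n : ℕ, (adv K v).v j = -n := ⟨((adv K v).v j).natAbs, by omega⟩
    have h2 := hcon v n hvq (by omega) hn
    rw [hn, dvd_neg]
    exact_mod_cast h2)
  linarith

end

end Pool.Agent.P8H9.UO
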