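import Mathlib
import Pool.Agent.P8H9.UO.El

/-!
# Elements of the inertia group at a pole of any order acting on the torsion (helper9; after helper19's
# `Pool.Agent.Q19.SU.setup` and `Pool.Agent.Q19.SU.tau_of`)
-/

set_option autoImplicit false

namespace Pool.Agent.P8H9.UO

open WeierstrassCurve NumberField IsDedekindDomain Pool.Agent.H901R3.MS Pool.Agent.Y673.Loc
open Pool.Agent.Y673.Loc.ZV Pool.Agent.W275.FM Pool.Agent.W275.FMK Pool.Agent.Y673.FM
open Pool.Agent.H691R3 Pool.Agent.W223.AK Pool.Agent.Y733.LS Pool.Agent.TH942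
open Pool.Agent.Q19.SU

section
variable {K : Type} [Field K] [NumberField K]

open scoped Classical in
/-- the data at a place above a pole of order `n` -/
theorem setup_n {A B : K} (hD : 4 * A ^ 3 + 27 * B ^ 2 ≠ 0) {p : ℕ} (hp0 : 1 ≤ p) (v : Pr K)
    (h2 : (adv K v).v 2 = 0) {n : ℕ} (hn : 0 < n)
    (hj : (adv K v).v (jv A B) = -n) :
    ∃ (L : Type) (_ : Field L) (_ : NumberField L) (_ : Algebra K L) (_ : IsGalois K L)
      (ι : L →ₐ[K] AlgebraicClosure K) (w : HeightOneSpectrum (𝓞 L)) (H : ℤ) (e η : L),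
      Dt (adv L w) 0 H e η ∧ algebraMap K L A = cA e η ∧ algebraMap K L B = cB e η ∧
      2 * H = n * Nat.card (w.asIdeal.inertia (L ≃ₐ[K] L)) ∧
      (∃ s : L, s ^ 2 = 3 * e) ∧
      (∀ z ∈ (crd A B p : Set (AlgebraicClosure K)), ∃ u, ι u = z) ∧
      (∀ τ : L ≃ₐ[K] L, ∃ σ : AlgebraicClosure K ≃ₐ[K] AlgebraicClosure K,
        ∀ u : L, ι (τ u) = σ (ι u)) ∧
      ∀ x : K, (adv L w).v (algebraMap K L x) =
        (Nat.card (w.asIdeal.inertia (L ≃ₐ[K] L)) : ℤ) * (adv K v).v x := by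
  set Kb := AlgebraicClosure K with hKb
  have : CharZero Kb := charZero_of_injective_algebraMap (algebraMap K Kb).injective
  have disc_of : Disc (ca Kb A) (ca Kb B) := by
    unfold Disc ca
    refine mul_ne_zero two_ne_zero ?_
    have e : (4 : Kb) * (algebraMap K Kb A) ^ 3 + 27 * (algebraMap K Kb B) ^ 2 =
        algebraMap K Kb (4 * A ^ 3 + 27 * B ^ 2) := by
      simp only [map_mul, map_add, map_pow, map_ofNat]
    rw [e]
    exact (map_ne_zero _).2 hD
  obtain ⟨fin1, -⟩ := Mul.tor Kb (ca Kb A) (ca Kb B) disc_of p (by omega)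
  set g₃ : Polynomial K := Polynomial.X ^ 3 + Polynomial.C A * Polynomial.X +
    Polynomial.C B with hg₃
  have d₃ : g₃.natDegree = 3 := by rw [hg₃]; compute_degree!
  have n₃ : g₃ ≠ 0 := by intro h; rw [h, Polynomial.natDegree_zero] at d₃; omega
  have finz : {z : Kb | Polynomial.aeval z g₃ = 0}.Finite := by
    have hg' : g₃.map (algebraMap K Kb) ≠ 0 :=
      (Polynomial.map_ne_zero_iff (algebraMap K Kb).injective).2 n₃
    refine Set.Finite.subset (g₃.map (algebraMap K Kb)).roots.toFinset.finite_toSet ?_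
    intro z hz
    rw [Finset.mem_coe, Multiset.mem_toFinset, Polynomial.mem_roots hg', Polynomial.IsRoot.def,
      Polynomial.eval_map_algebraMap]
    exact hz
  have stab : ∀ (σ : Kb ≃ₐ[K] Kb) (z : Kb), Polynomial.aeval z g₃ = 0 →
      Polynomial.aeval (σ z) g₃ = 0 := by
    intro σ z hz
    have e : Polynomial.aeval (σ z) g₃ = σ (Polynomial.aeval z g₃) :=
      Polynomial.aeval_algHom_apply (σ : Kb →ₐ[K] Kb) z g₃
    rw [e, hz, map_zero]
  have finq : {z : Kb | Polynomial.aeval (-(2 / 3) * z ^ 2) g₃ = 0}.Finite := by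
    refine Set.Finite.subset (finz.biUnion (t := fun r => {z : Kb | z ^ 2 = -(3 / 2) * r})
      fun r _ => ?_) ?_
    · have hpol : (Polynomial.X ^ 2 - Polynomial.C (-(3 / 2) * r) : Polynomial Kb) ≠ 0 :=
        Polynomial.X_pow_sub_C_ne_zero (by norm_num) _
      refine Set.Finite.subset (Polynomial.X ^ 2 -
        Polynomial.C (-(3 / 2) * r) : Polynomial Kb).roots.toFinset.finite_toSet ?_
      intro z hz
      rw [Finset.mem_coe, Multiset.mem_toFinset, Polynomial.mem_roots hpol, Polynomial.IsRoot.def]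
      simp only [Polynomial.eval_sub, Polynomial.eval_pow, Polynomial.eval_X, Polynomial.eval_C]
      have hz' : z ^ 2 = -(3 / 2) * r := hz
      rw [hz', sub_self]
    · intro z hz
      rw [Set.mem_iUnion₂]
      refine ⟨-(2 / 3) * z ^ 2, hz, ?_⟩
      show z ^ 2 = -(3 / 2) * (-(2 / 3) * z ^ 2)
      ring
  obtain ⟨L, iF, iN, iA, iG, ι, hι, hτσ⟩ := Pool.Agent.W150.FMK.Fld.main K
    (((crd A B p : Set Kb) ∪ {z : Kb | Polynomial.aeval z g₃ = 0}) ∪
      {z : Kb | Polynomial.aeval (-(2 / 3) * z ^ 2) g₃ = 0})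
    (((crd_finite A B p fin1).union finz).union finq) (by
      rintro σ z ((hz | hz) | hz)
      · exact Or.inl (Or.inl (crd_map A B p (σ : Kb →ₐ[K] Kb) hz))
      · exact Or.inl (Or.inr (stab σ z hz))
      · refine Or.inr ?_
        have h1 := stab σ _ hz
        have h2 : σ (-(2 / 3) * z ^ 2) = -(2 / 3) * (σ z) ^ 2 := by
          simp only [map_mul, map_neg, map_div₀, map_ofNat, map_pow]
        rw [h2] at h1
        exact h1)
  have ev₃ : ∀ z : Kb, Polynomial.aeval z g₃ = z ^ 3 + ca Kb A * z + ca Kb B := by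
    intro z; rw [hg₃]; simp [ca]
  obtain ⟨e₁, e₂, e₃, hsumL, l12, l23, l13, hAL, hBL⟩ := cubic_data A B hD ι (by
    intro z hz
    exact hι z (Or.inl (Or.inr (by
      show Polynomial.aeval z g₃ = 0
      rw [ev₃]; exact hz))))
  have hj0 : jv A B ≠ 0 := by
    intro h
    rw [h] at hj
    have : (adv K v).v 0 = 0 := by
      show -WithZero.log (v.valuation K 0) = 0
      rw [map_zero, WithZero.log_zero, neg_zero]
    omega
  have hjL : jr e₁ e₂ e₃ = algebraMap K L (jv A B) := by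
    unfold jr jv
    have hDL : algebraMap K L (4 * A ^ 3 + 27 * B ^ 2) =
        -((e₁ - e₂) * (e₂ - e₃) * (e₃ - e₁)) ^ 2 := by
      simp only [map_mul, map_add, map_pow, map_ofNat]
      rw [hAL, hBL]
      have : e₃ = -e₁ - e₂ := by linear_combination hsumL
      rw [this]; ring
    have hdL : ((e₁ - e₂) * (e₂ - e₃) * (e₃ - e₁)) ≠ 0 :=
      mul_ne_zero (mul_ne_zero (sub_ne_zero.2 l12) (sub_ne_zero.2 l23)) (sub_ne_zero.2 l13.symm)
    rw [map_div₀, hDL]
    simp only [map_mul, map_pow, map_ofNat]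
    rw [hAL]
    have : e₃ = -e₁ - e₂ := by linear_combination hsumL
    subst this
    rw [div_eq_div_iff (pow_ne_zero 2 hdL) (neg_ne_zero.2 (pow_ne_zero 2 hdL))]
    ring
  -- the place
  obtain ⟨w, hw⟩ : ∃ w : HeightOneSpectrum (𝓞 L), w.asIdeal.LiesOver v.asIdeal := by
    obtain ⟨⟨P, hP, hPv⟩⟩ := (inferInstance : Nonempty (v.asIdeal.primesOver (𝓞 L)))
    have hP0 : P ≠ ⊥ := Ideal.ne_bot_of_liesOver_of_ne_bot v.ne_bot P
    exact ⟨⟨P, hP, hP0⟩, hPv⟩
  obtain ⟨v', hv', hadv⟩ := adv_w K L w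
  have hvv : v' = v := by
    apply HeightOneSpectrum.ext
    rw [hv']
    exact hw.over.symm
  subst hvv
  set c : ℤ := (Nat.card (w.asIdeal.inertia (L ≃ₐ[K] L)) : ℤ) with hc
  have hc1 : 1 ≤ c := by
    rw [hc]
    have : Finite (L ≃ₐ[K] L) := inferInstance
    exact_mod_cast Nat.card_pos (α := w.asIdeal.inertia (L ≃ₐ[K] L))
  have h2L : (adv L w).E 0 (2 : L) := by
    refine ⟨two_ne_zero, ?_⟩
    have := hadv 2
    rwa [map_ofNat, h2, mul_zero] at this
  have hnc : 0 < (n : ℤ) * c := by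
    have : (0 : ℤ) < n := by exact_mod_cast hn
    positivity
  have hEj : (adv L w).E (-(n * c)) (jr e₁ e₂ e₃) := by
    rw [hjL]
    refine ⟨(map_ne_zero _).2 hj0, ?_⟩
    rw [hadv, hj]
    ring
  obtain ⟨e, t, H, D, hH, hcA, hcB⟩ := root_data le_rfl h2L (by norm_num) hsumL l12 l23 l13
    (by omega) hEj
  have hs : ∃ s : L, s ^ 2 = 3 * e := by
    obtain ⟨z, hz⟩ := IsAlgClosed.exists_pow_nat_eq (ι (3 * e)) (n := 2) (by norm_num)
    have hιA : ι (cA e t) = ca Kb A := by rw [← hcA, ← hAL]; exact ι.commutes A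
    have hιB : ι (cB e t) = ca Kb B := by rw [← hcB, ← hBL]; exact ι.commutes B
    obtain ⟨s, hs⟩ := hι z (Or.inr (by
      show Polynomial.aeval (-(2 / 3) * z ^ 2) g₃ = 0
      have h1 : -(2 / 3) * z ^ 2 = ι (-2 * e) := by
        rw [hz]
        simp only [map_mul, map_neg, map_ofNat]
        ring
      rw [ev₃, h1, ← hιA, ← hιB]
      unfold cA cB
      simp only [map_add, map_sub, map_mul, map_neg, map_pow, map_ofNat]
      ring))
    have h2 : ι (s ^ 2) = ι (3 * e) := by rw [map_pow, hs, hz]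
    exact ⟨s, ι.injective h2⟩
  exact ⟨L, iF, iN, iA, iG, ι, w, H, e, t, D, hAL.trans hcA, hBL.trans hcB,
    by rw [hH, neg_neg], hs, fun z hz => hι z (Or.inl (Or.inl hz)),
    fun τ => (hτσ τ).imp fun σ hσ => hσ.1, hadv⟩

end

open scoped Classical in
/-- **package TAU** -/
theorem t_TAU : S_TAU := by
  intro K _ _ A B hD p s k n v hp h2 h3 hpv hn hj hns
  set m : ℕ := max k (s + 1) with hm
  set N : ℕ := p ^ m with hNdef
  have hN : 1 ≤ N := Nat.one_le_pow _ _ hp.pos
  have hmk : k ≤ m := le_max_left _ _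
  have hms : s + 1 ≤ m := le_max_right _ _
  have hp0 : (p : K) ≠ 0 := Nat.cast_ne_zero.2 hp.ne_zero
  obtain ⟨L, iF, iN, iA, iG, ι, w, H, e, η, D, hA, hB, hH, ⟨s₀, hs₀⟩, hι, hτσ, hadv⟩ :=
    setup_n hD hN v h2 hn hj
  have hιA : ∀ a : K, ι (algebraMap K L a) = ca (AlgebraicClosure K) a := fun a => ι.commutes a
  have hιcA : ι (cA e η) = ca (AlgebraicClosure K) A := by rw [← hA, hιA]
  have hιcB : ι (cB e η) = ca (AlgebraicClosure K) B := by rw [← hB, hιA]
  have hchar : CharZero (AlgebraicClosure K) :=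
    charZero_of_injective_algebraMap (algebraMap K (AlgebraicClosure K)).injective
  have discK : Disc (ca (AlgebraicClosure K) A) (ca (AlgebraicClosure K) B) := by
    unfold Disc ca
    refine mul_ne_zero two_ne_zero ?_
    have e : (4 : AlgebraicClosure K) * (algebraMap K (AlgebraicClosure K) A) ^ 3 +
        27 * (algebraMap K (AlgebraicClosure K) B) ^ 2 =
        algebraMap K (AlgebraicClosure K) (4 * A ^ 3 + 27 * B ^ 2) := by
      simp only [map_add, map_mul, map_pow, map_ofNat]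
    rw [e]
    exact (map_ne_zero _).2 hD
  have hH1 := D.dat.hH
  have hpL : (adv L w).E 0 (p : L) := by
    refine ⟨Nat.cast_ne_zero.2 hp.ne_zero, ?_⟩
    have := hadv (p : K)
    rwa [map_natCast, hpv, mul_zero] at this
  have hNL : (adv L w).E 0 (N : L) := by
    have h4 := hpL.pow m
    rw [hNdef]
    push_cast
    exact h4.cast (by ring)
  have h3L : (adv L w).E 0 (3 : L) := by
    refine ⟨three_ne_zero, ?_⟩
    have := hadv 3
    rwa [map_ofNat, h3, mul_zero] at this
  -- the homomorphism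
  obtain ⟨T, hT⟩ : ∃ T : Pt (cA e η) (cB e η) →+ Pt (ca (AlgebraicClosure K) A)
      (ca (AlgebraicClosure K) B), T = tw (ι : L →+* AlgebraicClosure K) 1 two_ne_zero one_ne_zero
        (by rw [one_pow, one_mul]; exact hιcA) (by rw [one_pow, one_mul]; exact hιcB) := ⟨_, rfl⟩
  have hns0 : ∀ {x y : L}, (CV (cA e η) (cB e η)).toAffine.Nonsingular x y →
      (CV (ca (AlgebraicClosure K) A) (ca (AlgebraicClosure K) B)).toAffine.Nonsingular (ι x)
        (ι y) := by
    intro x y h
    rw [nonsingular_iff discK]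
    have := (nonsingular_iff D.disc).1 h
    unfold Eqn at this ⊢
    rw [← hιcA, ← hιcB, ← map_pow, this]
    simp only [map_add, map_mul, map_pow]
  have hTsome : ∀ {x y : L} (h : (CV (cA e η) (cB e η)).toAffine.Nonsingular x y),
      T (Affine.Point.some x y h) = Affine.Point.some (ι x) (ι y) (hns0 h) := by
    intro x y h
    rw [hT, tw_some]
    refine pt_ext _ _ ?_ ?_
    · rw [one_pow, div_one]; rfl
    · rw [one_pow, div_one]; rfl
  have hTinj : Function.Injective T := by rw [hT]; exact tw_inj _ _ _ _ _ _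
  have hTsurj : ∀ R : Pt (ca (AlgebraicClosure K) A) (ca (AlgebraicClosure K) B), N • R = 0 →
      ∃ R', T R' = R := by
    rintro (_ | ⟨x, y, h⟩) hR
    · exact ⟨0, map_zero _⟩
    · obtain ⟨x', hx'⟩ := hι x ⟨x, y, h, hR, Or.inl rfl⟩
      obtain ⟨y', hy'⟩ := hι y ⟨x, y, h, hR, Or.inr rfl⟩
      have hn : (CV (cA e η) (cB e η)).toAffine.Nonsingular x' y' := by
        rw [nonsingular_iff D.disc]
        have := (nonsingular_iff discK).1 h
        unfold Eqn at this ⊢
        have h1 : ι (y' ^ 2) = ι (x' ^ 3 + cA e η * x' + cB e η) := by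
          simp only [map_add, map_mul, map_pow]
          rw [hx', hy', hιcA, hιcB]
          exact this
        exact ι.injective h1
      exact ⟨Affine.Point.some x' y' hn, by rw [hTsome]; exact pt_ext _ _ hx' hy'⟩
  have hpN : p ∣ N := dvd_pow_self p (by omega)
  -- a point of order `p` of positive level
  obtain ⟨P₁, hP₁, a₁, ha₁, hl₁⟩ : ∃ P : Pt (cA e η) (cB e η), p • P = 0 ∧
      ∃ a, 0 < a ∧ LV (adv L w) 0 H e η P a := by
    rcases hp.eq_two_or_odd' with rfl | hodd
    · have hz := z_val D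
      have hns1 : (CV (cA e η) (cB e η)).toAffine.Nonsingular (e + η) 0 := by
        rw [nonsingular_iff D.disc]
        unfold Eqn cA cB
        ring
      refine ⟨Affine.Point.some (e + η) 0 hns1, ?_, H, by omega, ?_⟩
      · rw [two_nsmul]
        exact add_opp hns1 hns1 rfl (by simp)
      · show NN (adv L w) 0 H ((e + η - e) / (3 * e)) H
        rw [add_sub_cancel_left]
        exact NN.top (hz.G.mono (by omega))
    · have h5 := pos_level D (ι : L →+* AlgebraicClosure K) (n := p) hodd (by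
        intro x' y' h h0
        have e1 : (ι : L →+* AlgebraicClosure K) (cA e η) = ca (AlgebraicClosure K) A := hιcA
        have e2 : (ι : L →+* AlgebraicClosure K) (cB e η) = ca (AlgebraicClosure K) B := hιcB
        revert h h0
        rw [e1, e2]
        intro h h0
        have h0' : N • (Affine.Point.some x' y' h :
            Pt (ca (AlgebraicClosure K) A) (ca (AlgebraicClosure K) B)) = 0 := by
          obtain ⟨c, hc⟩ := hpN
          rw [hc, mul_comm, mul_nsmul', h0, nsmul_zero]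
        obtain ⟨x'', hx''⟩ := hι x' ⟨x', y', h, h0', Or.inl rfl⟩
        obtain ⟨y'', hy''⟩ := hι y' ⟨x', y', h, h0', Or.inr rfl⟩
        exact ⟨⟨x'', hx''⟩, ⟨y'', hy''⟩⟩) (by
        rw [hpL.2, mul_zero]
        apply mul_pos
        · have : (2 : ℤ) ≤ p := by exact_mod_cast hp.two_le
          nlinarith
        · omega)
      exact h5
  -- a point of order `p ^ (s + 1)` above it
  obtain ⟨P, hP, hPP₁⟩ : ∃ P : Pt (cA e η) (cB e η), p ^ (s + 1) • P = 0 ∧ p ^ s • P = P₁ := by
    obtain ⟨R, hR⟩ := div_ep hD hp s (P := (eqv A B (AlgebraicClosure K)).symm (T P₁)) (by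
      rw [← map_zsmul, ← map_zsmul, natCast_zsmul, hP₁, map_zero, map_zero])
    have hR' : p ^ s • (eqv A B (AlgebraicClosure K) R) = T P₁ := by
      have h4 := congrArg (eqv A B (AlgebraicClosure K)) hR
      rw [AddEquiv.apply_symm_apply, map_zsmul] at h4
      rw [← h4, ← natCast_zsmul]
      push_cast
      rfl
    have hR1 : p ^ (s + 1) • (eqv A B (AlgebraicClosure K) R) = 0 := by
      rw [pow_succ, mul_comm, mul_nsmul', hR', ← map_nsmul, hP₁, map_zero]
    obtain ⟨P, hP⟩ := hTsurj (eqv A B (AlgebraicClosure K) R) (by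
      obtain ⟨c, hc⟩ : p ^ (s + 1) ∣ N := pow_dvd_pow p hms
      rw [hc, mul_comm, mul_nsmul', hR1, nsmul_zero])
    refine ⟨P, hTinj ?_, hTinj ?_⟩
    · rw [map_nsmul, hP, hR1, map_zero]
    · rw [map_nsmul, hP, hR']
  obtain ⟨σ, hin, ha, hb, hne, hne'⟩ := el_n w D hA hB hn hH hp hns hP ha₁ (by rw [hPP₁]; exact hl₁)
  obtain ⟨he, -⟩ := he_of D hin ha hb
  obtain ⟨χ, hχ, hχs, hu⟩ := unip3 D h3L hs₀ hin ha hb he
  obtain ⟨τ, hτ⟩ := hτσ σ
  have hequiv : ∀ R : Pt (cA e η) (cB e η), act A B τ ((eqv A B (AlgebraicClosure K)).symm (T R)) =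
      (eqv A B (AlgebraicClosure K)).symm (T (ac two_ne_zero (rh σ) ha hb R)) := by
    rintro (_ | ⟨x, y, h⟩)
    · have h0 : (Affine.Point.zero : Pt (cA e η) (cB e η)) = 0 := rfl
      rw [h0, map_zero, map_zero, map_zero, map_zero, map_zero, map_zero]
    · rw [hTsome, ac_some, hTsome, act_coord]
      refine congrArg _ (pt_ext _ _ ?_ ?_)
      · rw [← hτ]; rfl
      · rw [← hτ]; rfl
  refine ⟨τ, χ, hχ, ?_, (eqv A B (AlgebraicClosure K)).symm (T P), ?_, ?_⟩
  · intro R hR
    obtain ⟨R', rfl⟩ : ∃ R', (eqv A B (AlgebraicClosure K)).symm R' = R :=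
      ⟨_, AddEquiv.symm_apply_apply _ _⟩
    have hRk : p ^ k • R' = 0 := by
      apply (eqv A B (AlgebraicClosure K)).symm.injective
      rw [map_nsmul, map_zero, ← natCast_zsmul]
      push_cast
      exact hR
    have hR' : N • R' = 0 := by
      obtain ⟨c, hc⟩ : p ^ k ∣ N := pow_dvd_pow p hmk
      rw [hc, mul_comm, mul_nsmul', hRk, nsmul_zero]
    obtain ⟨R'', rfl⟩ := hTsurj R' hR'
    have hR'' : N • R'' = 0 := by
      apply hTinj
      rw [map_nsmul, hR', map_zero]
    have h1 := hu N hNL R'' hR''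
    obtain ⟨Φ, hΦ⟩ : ∃ Φ : Pt (cA e η) (cB e η) →+ EP A B,
        Φ = (eqv A B (AlgebraicClosure K)).symm.toAddMonoidHom.comp T := ⟨_, rfl⟩
    have hΦa : ∀ R, act A B τ (Φ R) = Φ (ac two_ne_zero (rh σ) ha hb R) := by
      intro R
      rw [hΦ]
      exact hequiv R
    have hΦR : (eqv A B (AlgebraicClosure K)).symm (T R'') = Φ R'' := by rw [hΦ]; rfl
    have e1 : ∀ R, χ • act A B τ (Φ R) - Φ R = Φ (χ • ac two_ne_zero (rh σ) ha hb R - R) := by
      intro R
      rw [hΦa, ← map_zsmul, ← map_sub]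
    rw [hΦR, e1, hΦa, ← map_zsmul, h1]
  · rw [← map_zsmul, ← map_zsmul]
    have h4 : ((p : ℤ) ^ (s + 1)) • P = 0 := by
      rw [← hP, ← natCast_zsmul]
      push_cast
      rfl
    rw [h4, map_zero, map_zero]
  · rw [hequiv, ← map_zsmul, ← map_zsmul]
    intro h
    have h4 := hTinj ((eqv A B (AlgebraicClosure K)).symm.injective h)
    rcases hχ with h5 | h5
    · rw [h5, one_smul] at h4
      exact hne h4
    · rw [h5, neg_smul, one_smul] at h4
      exact hne' (neg_eq_iff_eq_neg.1 h4)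

end Pool.Agent.P8H9.UO
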