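import Mathlib
import Pool.Agent.P8H9.TQ.All
import Pool.Agent.P8H9.UO.Base
import Pool.Agent.P8H9.UO.Tau
import Pool.Agent.P8H9.UO.Pole
import Pool.Agent.P8H62.UO.Cong
import Pool.Agent.P8H62.UO.Trv
import Pool.Agent.P8H1.UO.Pad

/-!
# The small primes (helper9)
-/

set_option autoImplicit false
set_option linter.unusedSectionVars false
set_option linter.style.haveILetI false

namespace Pool.Agent.P8H9.UO

open WeierstrassCurve NumberField IsDedekindDomain Pool.Agent.H901R3.MS Pool.Agent.Y673.Loc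
open Pool.Agent.Y673.Loc.ZV Pool.Agent.W275.FM Pool.Agent.W275.FMK Pool.Agent.Y673.FM
open Pool.Agent.H691R3 Pool.Agent.W223.AK Pool.Agent.Y733.LS Pool.Agent.TH942
open Pool.Agent.Q19.SU Pool.Agent.P8H9.TQ Pool.Agent.Q19.SU.Gen

/-- the square of a unipotent element up to sign -/
theorem sq_unip {G V : Type} [Group G] [AddCommGroup V] {ρ : G → V →+ V} (H : Rep ρ) {p : ℕ}
    (hp : p.Prime) {s K : ℕ} {τ : G} {χ : ℤ} (hχ : χ = 1 ∨ χ = -1)
    (hu : ∀ R : V, ((p : ℤ) ^ (K + s + 2)) • R = 0 → χ • ρ τ (χ • ρ τ R - R) = χ • ρ τ R - R)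
    (hne : ∃ P : V, ((p : ℤ) ^ (s + 1)) • P = 0 ∧ χ • ρ τ P ≠ P) :
    (∀ R : V, ((p : ℤ) ^ K) • R = 0 → ρ (τ * τ) (ρ (τ * τ) R - R) = ρ (τ * τ) R - R) ∧
    ∃ P : V, ((p : ℤ) ^ (s + 1 + 1)) • P = 0 ∧ ρ (τ * τ) P ≠ P := by
  have hχ2 : χ * χ = 1 := by rcases hχ with h | h <;> rw [h] <;> norm_num
  obtain ⟨f, hf⟩ : ∃ f : V →+ V, ∀ R, f R = χ • ρ τ R := ⟨χ • ρ τ, fun R => rfl⟩
  have hff : ∀ R, ρ (τ * τ) R = f (f R) := by
    intro R
    rw [hf, hf, map_zsmul, smul_smul, hχ2, one_smul, H.mul]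
  have hu' : ∀ R : V, ((p : ℤ) ^ (K + s + 2)) • R = 0 → f (f R - R) = f R - R := by
    intro R hR
    rw [hf (f R - R), hf R]
    exact hu R hR
  have h2 : ∀ R : V, ((p : ℤ) ^ (K + s + 2)) • R = 0 → ρ (τ * τ) R - R = (2 : ℤ) • (f R - R) := by
    intro R hR
    have h3 := hu' R hR
    rw [map_sub] at h3
    rw [hff]
    have h4 : f (f R) = f R - R + f R := by rw [← h3]; abel
    rw [h4, two_smul]
    abel
  have hup : ∀ (i : ℕ) (R : V), i ≤ K + s + 2 → ((p : ℤ) ^ i) • R = 0 →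
      ((p : ℤ) ^ (K + s + 2)) • R = 0 := by
    intro i R hi hR
    have e : (p : ℤ) ^ (K + s + 2) = (p : ℤ) ^ (K + s + 2 - i) * (p : ℤ) ^ i := by
      rw [← pow_add]
      congr 1
      omega
    rw [e, mul_smul, hR, smul_zero]
  constructor
  · intro R hR
    have hR' := hup K R (by omega) hR
    rw [h2 R hR', map_zsmul, hff, hu' R hR', hu' R hR']
  · obtain ⟨P, hP, hPne⟩ := hne
    have hPne' : f P - P ≠ 0 := by
      rw [hf]
      exact sub_ne_zero.2 hPne
    obtain ⟨X, Y, hB⟩ := H.bas (p ^ (s + 2)) (Nat.one_le_pow _ _ hp.pos)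
    obtain ⟨P', hP'⟩ : ∃ P' : V, (p : ℤ) • P' = P := by
      have hpp : ((p : ℤ) ^ (s + 2)) • P = 0 := by
        rw [pow_succ', mul_smul, hP, smul_zero]
      obtain ⟨a, b, hab⟩ := hB.span P (by push_cast; exact hpp)
      have h5 := hB.ind ((p : ℤ) ^ (s + 1) * a) ((p : ℤ) ^ (s + 1) * b) (by
        rw [mul_smul, mul_smul, ← smul_add, ← hab]
        exact hP)
      have hp0 : ((p : ℤ) ^ (s + 1)) ≠ 0 := pow_ne_zero _ (by exact_mod_cast hp.ne_zero)
      obtain ⟨⟨a', ha'⟩, ⟨b', hb'⟩⟩ := h5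
      have ea : a = p * a' := by
        apply mul_left_cancel₀ hp0
        rw [ha']
        push_cast
        ring
      have eb : b = p * b' := by
        apply mul_left_cancel₀ hp0
        rw [hb']
        push_cast
        ring
      refine ⟨a' • X + b' • Y, ?_⟩
      rw [hab, ea, eb]
      module
    have hP2 : ((p : ℤ) ^ (s + 1 + 1)) • P' = 0 := by
      rw [pow_succ, mul_smul, hP', hP]
    refine ⟨P', hP2, ?_⟩
    intro h
    have h6 := h2 P' (hup (s + 1 + 1) P' (by omega) hP2)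
    rw [h, sub_self] at h6
    -- `2 (f P' - P') = 0`
    have h7 : (2 : ℤ) • (f P - P) = 0 := by
      have e : (2 : ℤ) • (f P - P) = (p : ℤ) • ((2 : ℤ) • (f P' - P')) := by
        rw [← hP', map_zsmul]
        module
      rw [e, ← h6, smul_zero]
    rcases hp.eq_two_or_odd' with h8 | h8
    · have e : f P - P = (2 : ℤ) • (f P' - P') := by
        have hp2 : (p : ℤ) = 2 := by exact_mod_cast h8
        rw [← hP', hp2, map_zsmul]
        module
      exact hPne' (by rw [e, ← h6])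
    · have h9 : ((p : ℤ) ^ (s + 1)) • (f P - P) = 0 := by
        rw [smul_sub, ← map_zsmul, hP, map_zero, sub_zero]
      have hcop : IsCoprime ((p : ℤ) ^ (s + 1)) 2 := by
        apply IsCoprime.pow_left
        rw [Int.isCoprime_iff_gcd_eq_one]
        exact (Nat.coprime_two_right).2 h8
      obtain ⟨a, b, hab⟩ := hcop
      apply hPne'
      calc f P - P = (a * (p : ℤ) ^ (s + 1) + b * 2) • (f P - P) := by rw [hab, one_smul]
        _ = 0 := by rw [add_smul, mul_smul, mul_smul, h9, h7, smul_zero, smul_zero, add_zero]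

open scoped Classical in
theorem small_p (β : ℝ) (hβ : 0 < β) (P₀ : ℕ) :
    ∃ (M : ℕ) (C : ℝ), 2 ≤ M ∧ 0 ≤ C ∧ ∀ (K : Type) [Field K] [NumberField K] (A B : K),
    4 * A ^ 3 + 27 * B ^ 2 ≠ 0 → C * Module.finrank ℚ K ≤ ht (jj A B) →
    β * ht (jj A B) ≤ rad (jj A B) → ∀ p : ℕ, p.Prime → p ≤ P₀ → ∀ k : ℕ,
    ∃ P Q : EP A B, Bas (p ^ k) P Q ∧
      AllN (fun σ : AlgebraicClosure K ≃ₐ[K] AlgebraicClosure K => act A B σ) (p ^ M) (p ^ k) 1 P Q := by
  obtain ⟨N₁, C₁, hN₁, hC₁, hcyc⟩ := cyc_all β hβ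
  obtain ⟨s, hs⟩ : ∃ s : ℕ, 4 / β ≤ (2 : ℝ) ^ (s + 1) := by
    obtain ⟨n, hn⟩ := pow_unbounded_of_one_lt (4 / β) (by norm_num : (1 : ℝ) < 2)
    refine ⟨n, hn.le.trans ?_⟩
    exact pow_le_pow_right₀ (by norm_num) (by omega)
  set l : ℝ := Real.log (6 * P₀ + 1) with hl
  have hl0 : 0 ≤ l := Real.log_nonneg (by
    have : (0 : ℝ) ≤ P₀ := Nat.cast_nonneg _
    linarith)
  refine ⟨2 * (s + 1) + 3 * N₁, C₁ + 4 / β * l + 1, by omega, by positivity, ?_⟩
  intro K _ _ A B hD hht hrad p hp hpP k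
  set j := jj A B with hj
  set d : ℝ := (Module.finrank ℚ K : ℝ) with hd
  have hd1 : 1 ≤ d := by
    have : 0 < Module.finrank ℚ K := Module.finrank_pos
    rw [hd]
    exact_mod_cast this
  have h1 : 0 ≤ 4 / β * l := by positivity
  have hht0 : 0 < ht j := by nlinarith
  have hhtC : C₁ * d ≤ ht j := by nlinarith
  have hhtl : 4 / β * l * d ≤ ht j := by nlinarith
  have hj0 : j ≠ 0 := by
    intro h
    rw [h] at hht0
    have h2 : ht (0 : K) = 0 := by
      rw [ht_eq_Sa, ← Pool.Agent.Y733.LS.logHeight_eq]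
      simp
    linarith
  obtain ⟨v, n, hvq, hn, hvj, hns⟩ := pole hj0 (6 * p) (p ^ (s + 1)) (by
      have := hp.pos
      omega) (pow_pos hp.pos _) (by
    have h3 : Real.log ((6 * p : ℕ) : ℝ) ≤ l := by
      rw [hl]
      apply Real.log_le_log
      · have : (0 : ℝ) < p := by exact_mod_cast hp.pos
        push_cast
        linarith
      · have : (p : ℝ) ≤ P₀ := by exact_mod_cast hpP
        push_cast
        linarith
    have h4 : (2 : ℝ) ^ (s + 1) ≤ ((p ^ (s + 1) : ℕ) : ℝ) := by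
      push_cast
      have : (2 : ℝ) ≤ p := by exact_mod_cast hp.two_le
      exact pow_le_pow_left₀ (by norm_num) this _
    have h5 : 4 / β ≤ ((p ^ (s + 1) : ℕ) : ℝ) := hs.trans h4
    have h6 : 1 / ((p ^ (s + 1) : ℕ) : ℝ) ≤ β / 4 := by
      have h7 : 0 < 4 / β := by positivity
      have h8 := one_div_le_one_div_of_le h7 h5
      rwa [one_div_div] at h8
    have h7 : 1 / ((p ^ (s + 1) : ℕ) : ℝ) * ht j ≤ β / 4 * ht j :=
      mul_le_mul_of_nonneg_right h6 hht0.le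
    have h8 : d * Real.log ((6 * p : ℕ) : ℝ) ≤ β / 4 * ht j := by
      have h9 : d * Real.log ((6 * p : ℕ) : ℝ) ≤ d * l := mul_le_mul_of_nonneg_left h3 (by linarith)
      have h10 : β / 4 * (4 / β * l * d) ≤ β / 4 * ht j :=
        mul_le_mul_of_nonneg_left hhtl (by positivity)
      have h11 : β / 4 * (4 / β * l * d) = d * l := by field_simp
      linarith
    have h9 : 0 < β * ht j := by positivity
    linarith)
  -- the place
  have hp0 : (p : K) ≠ 0 := Nat.cast_ne_zero.2 hp.ne_zero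
  have hna := fv_Na v
  have n2 : fv v (2 : K) ≤ 1 := hna.ofNat 2
  have n3 : fv v (3 : K) ≤ 1 := hna.ofNat 3
  have np : fv v (p : K) ≤ 1 := hna.nat p
  have p2 : 0 < fv v (2 : K) := (fv v).pos (by norm_num)
  have p3 : 0 < fv v (3 : K) := (fv v).pos (by norm_num)
  have pp : 0 < fv v (p : K) := (fv v).pos hp0
  have hprod : fv v (2 : K) * fv v (3 : K) * fv v (p : K) = 1 := by
    rw [← hvq, ← map_mul, ← map_mul]
    congr 1
    push_cast
    ring
  have a23 : fv v (2 : K) * fv v (3 : K) ≤ 1 := mul_le_one₀ n2 p3.le n3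
  have e2 : fv v (2 : K) = 1 := by
    by_contra hcon
    have hlt : fv v (2 : K) < 1 := lt_of_le_of_ne n2 hcon
    have : fv v (2 : K) * fv v (3 : K) * fv v (p : K) < 1 := by
      calc fv v (2 : K) * fv v (3 : K) * fv v (p : K) ≤ fv v (2 : K) * 1 * 1 := by gcongr
        _ < 1 := by linarith
    linarith
  have e3 : fv v (3 : K) = 1 := by
    by_contra hcon
    have hlt : fv v (3 : K) < 1 := lt_of_le_of_ne n3 hcon
    rw [e2, one_mul] at hprod
    nlinarith
  have ep : fv v (p : K) = 1 := by rw [e2, e3, one_mul, one_mul] at hprod; exact hprod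
  have k2 : (adv K v).v 2 = 0 := (Pool.Agent.Y673.Cnt.fv_eq_one_iff v two_ne_zero).1 e2
  have k3 : (adv K v).v 3 = 0 := (Pool.Agent.Y673.Cnt.fv_eq_one_iff v three_ne_zero).1 e3
  have kp : (adv K v).v (p : K) = 0 := (Pool.Agent.Y673.Cnt.fv_eq_one_iff v hp0).1 ep
  refine Pool.Agent.P8H62.UO.con Pool.Agent.P8H62.UO.trv Pool.Agent.P8H1.UO.pad _ _ _ (rep hD) p
    (s + 1) N₁ hp hN₁ ?_ ?_ k
  · intro K'
    obtain ⟨τ, χ, hχ, hu, hne⟩ := t_TAU K A B hD p s (K' + s + 2) n v hp k2 k3 kp hn hvj hns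
    exact ⟨τ * τ, sq_unip (rep hD) hp hχ hu hne⟩
  · intro c hc hc0
    by_contra hcon
    push Not at hcon
    have hfin : IsOfFinAddOrder c := isOfFinAddOrder_iff_nsmul_eq_zero.2
      ⟨p ^ N₁, pow_pos hp.pos _, by rw [← natCast_zsmul]; push_cast; exact hc⟩
    have h2 := hcyc K A B hD hhtC hrad c hfin hcon
    have h3 : addOrderOf c = p ^ (N₁ - 1 + 1) := by
      haveI : Fact p.Prime := ⟨hp⟩
      apply addOrderOf_eq_prime_pow
      · intro h
        apply hc0
        rw [← natCast_zsmul] at h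
        push_cast at h
        exact h
      · rw [← natCast_zsmul, Nat.sub_add_cancel hN₁]
        push_cast
        exact hc
    rw [h3, Nat.sub_add_cancel hN₁] at h2
    have h4 := Nat.le_of_dvd hN₁ h2
    have h5 : N₁ < p ^ N₁ := Nat.lt_pow_self hp.one_lt
    omega

end Pool.Agent.P8H9.UO
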