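import Mathlib
import Pool.Agent.P8H9.UO.Small
import Pool.Agent.P8H9.UO.Large
import Pool.Agent.P8H7.UO.Cpr
import Pool.Agent.P8H52.UO.Uo
import Pool.Agent.P8H62.UO.Stp
import Pool.Agent.P8H22.UO.Ele
import Pool.Agent.P8H84.UO.Big
import Pool.Agent.P8H84.UO.Grp

/-!
# Project UO: the uniform open image theorem (helper9 with helper1, 7, 22, 52, 62, 84)
-/

set_option autoImplicit false

namespace Pool.Agent.P8H9.UO

open WeierstrassCurve NumberField IsDedekindDomain Pool.Agent.H901R3.MS Pool.Agent.Y673.Loc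
open Pool.Agent.H691R3 Pool.Agent.W223.AK Pool.Agent.Y733.LS
open Pool.Agent.Q19.SU Pool.Agent.P8H9.TQ Pool.Agent.Q19.SU.Gen

open scoped Classical in
/-- **the uniform open image theorem** -/
theorem uo (β : ℝ) (hβ : 0 < β) : ∃ (N : ℕ) (C : ℝ), 1 ≤ N ∧ 0 ≤ C ∧
    ∀ (K : Type) [Field K] [NumberField K] (A B : K), 4 * A ^ 3 + 27 * B ^ 2 ≠ 0 →
    C * Module.finrank ℚ K ≤ ht (jj A B) → β * ht (jj A B) ≤ rad (jj A B) →
    ∀ n : ℕ, 1 ≤ n → ∃ P Q : EP A B, Bas n P Q ∧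
      AllN (fun σ : AlgebraicClosure K ≃ₐ[K] AlgebraicClosure K => act A B σ) N n 1 P Q := by
  obtain ⟨P₀, C₁, h5, hC₁, hL⟩ := large_p β hβ
  obtain ⟨M, C₂, hM, hC₂, hS⟩ := small_p β hβ P₀
  obtain ⟨N, hN, hG⟩ := Pool.Agent.P8H84.UO.grp Pool.Agent.P8H52.UO.det Pool.Agent.P8H52.UO.cmt
    Pool.Agent.P8H52.UO.kil Pool.Agent.P8H22.UO.ele Pool.Agent.P8H7.UO.cpr Pool.Agent.P8H62.UO.stp
    Pool.Agent.P8H84.UO.big P₀ M h5 hM
  refine ⟨N, max C₁ C₂, hN, le_max_of_le_left hC₁, ?_⟩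
  intro K _ _ A B hD hht hrad n hn
  have hd : (0 : ℝ) ≤ Module.finrank ℚ K := Nat.cast_nonneg _
  have h1 : C₁ * Module.finrank ℚ K ≤ ht (jj A B) :=
    (mul_le_mul_of_nonneg_right (le_max_left _ _) hd).trans hht
  have h2 : C₂ * Module.finrank ℚ K ≤ ht (jj A B) :=
    (mul_le_mul_of_nonneg_right (le_max_right _ _) hd).trans hht
  exact hG _ _ _ (rep hD) (fun p hp hpP k => hL K A B hD h1 hrad p hp hpP k)
    (fun p hp hpP k => hS K A B hD h2 hrad p hp hpP k) n hn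

theorem lift_gcd {n N : ℕ} {x : ℤ} (h : ((n.gcd N : ℕ) : ℤ) ∣ x) :
    ∃ y : ℤ, (n : ℤ) ∣ x - y ∧ (N : ℤ) ∣ y := by
  obtain ⟨c, hc⟩ := h
  have h1 := Nat.gcd_eq_gcd_ab n N
  refine ⟨N * n.gcdB N * c, ⟨n.gcdA N * c, ?_⟩, ⟨n.gcdB N * c, by ring⟩⟩
  rw [hc, h1]
  ring

open scoped Classical in
/-- the theorem in plain words -/
theorem plain {K : Type} [Field K] [NumberField K] {A B : K} {n N : ℕ} {P Q : EP A B}
    (hB : Bas n P Q)
    (hA : AllN (fun σ : AlgebraicClosure K ≃ₐ[K] AlgebraicClosure K => act A B σ) N n 1 P Q) :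
    (n • P = 0 ∧ n • Q = 0 ∧ (∀ R : EP A B, n • R = 0 → ∃ a b : ℤ, R = a • P + b • Q) ∧
      ∀ a b : ℤ, a • P + b • Q = 0 → (n : ℤ) ∣ a ∧ (n : ℤ) ∣ b) ∧
    ∀ a b c d : ℤ, ((n : ℤ) ∣ a * d - b * c - 1 ∧ ((n.gcd N : ℕ) : ℤ) ∣ a - 1 ∧
      ((n.gcd N : ℕ) : ℤ) ∣ b ∧ ((n.gcd N : ℕ) : ℤ) ∣ c ∧ ((n.gcd N : ℕ) : ℤ) ∣ d - 1) →
      ∃ σ : AlgebraicClosure K ≃ₐ[K] AlgebraicClosure K,
        act A B σ P = a • P + c • Q ∧ act A B σ Q = b • P + d • Q := by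
  refine ⟨⟨?_, ?_, ?_, hB.ind⟩, ?_⟩
  · rw [← natCast_zsmul]
    exact hB.hP
  · rw [← natCast_zsmul]
    exact hB.hQ
  · intro R hR
    rw [← natCast_zsmul] at hR
    exact hB.span R hR
  · rintro a b c d ⟨hdet, ha, hb, hc, hd⟩
    obtain ⟨a', ha1, ha2⟩ := lift_gcd ha
    obtain ⟨b', hb1, hb2⟩ := lift_gcd hb
    obtain ⟨c', hc1, hc2⟩ := lift_gcd hc
    obtain ⟨d', hd1, hd2⟩ := lift_gcd hd
    have ea : (n : ℤ) ∣ a - (a' + 1) := by
      have e : a - (a' + 1) = a - 1 - a' := by ring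
      rw [e]; exact ha1
    have ed : (n : ℤ) ∣ d - (d' + 1) := by
      have e : d - (d' + 1) = d - 1 - d' := by ring
      rw [e]; exact hd1
    obtain ⟨σ, h1, h2, -⟩ := hA (a' + 1) b' c' (d' + 1) (by
      have e : (a' + 1) * (d' + 1) - b' * c' - 1 = (a * d - b * c - 1) - (a - (a' + 1)) * d -
          (a' + 1) * (d - (d' + 1)) + (b - b') * c + b' * (c - c') := by ring
      rw [e]
      exact (((hdet.sub (ea.mul_right _)).sub (ed.mul_left _)).add (hb1.mul_right _)).add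
        (hc1.mul_left _)) (by rw [add_sub_cancel_right]; exact ha2) hb2 hc2
      (by rw [add_sub_cancel_right]; exact hd2)
    have h1' : act A B σ P = (a' + 1) • P + c' • Q := h1
    have h2' : act A B σ Q = b' • P + (d' + 1) • Q := h2
    refine ⟨σ, ?_, ?_⟩
    · rw [h1', smul_congr hB.hP ea, smul_congr hB.hQ hc1]
    · rw [h2', smul_congr hB.hP hb1, smul_congr hB.hQ ed]

end Pool.Agent.P8H9.UO
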