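import Mathlib
import Pool.Agent.P8H9.UO.StmT

/-!
# Conjugates of cyclic subgroups under a congruence subgroup (helper9; after helper495's `orb_line`)
-/

set_option autoImplicit false
set_option linter.unusedSectionVars false

namespace Pool.Agent.P8H9.UO

open WeierstrassCurve NumberField Pool.Agent.Y673.Loc Pool.Agent.Y673.SL
open Pool.Agent.Q19.SU Pool.Agent.Q19.SU.Gen

open scoped Classical in
/-- **the order of a cyclic subgroup which is stable over an extension** -/
theorem orb_cong {K : Type} [Field K] [NumberField K] {A B : K} {n N : ℕ} (hn : 1 ≤ n) (hN : 1 ≤ N)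
    {P Q : EP A B} (hB : Bas n P Q)
    (hA : AllN (fun σ : AlgebraicClosure K ≃ₐ[K] AlgebraicClosure K => act A B σ) N n 1 P Q)
    (M : IntermediateField K (AlgebraicClosure K)) [FiniteDimensional K M] {z : EP A B}
    (hz : ∀ σ ∈ M.fixingSubgroup, act A B σ z ∈ AddSubgroup.zmultiples z)
    (hord : addOrderOf z = n) : n ≤ N * Module.finrank K M := by
  have hnz : (n : ℤ) • z = 0 := by
    rw [natCast_zsmul, ← hord]; exact addOrderOf_nsmul_eq_zero z
  obtain ⟨α, γ, hαγ⟩ := hB.span z hnz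
  have hn0 : (0 : ℤ) < n := by exact_mod_cast hn
  -- the coordinates are primitive
  obtain ⟨x, y, t, hxy⟩ : ∃ x y t : ℤ, x * γ - y * α + t * n = 1 := by
    obtain ⟨g, hg⟩ : ∃ g : ℕ, g = Int.gcd (Int.gcd α γ) n := ⟨_, rfl⟩
    have hgn : (g : ℤ) ∣ n := by rw [hg]; exact Int.gcd_dvd_right _ _
    have hgac : (g : ℤ) ∣ Int.gcd α γ := by rw [hg]; exact Int.gcd_dvd_left _ _
    obtain ⟨m, hm⟩ : g ∣ n := by exact_mod_cast hgn
    obtain ⟨a', ha'⟩ := hgac.trans (Int.gcd_dvd_left α γ)
    obtain ⟨c', hc'⟩ := hgac.trans (Int.gcd_dvd_right α γ)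
    have hg0 : 0 < g := by
      rcases Nat.eq_zero_or_pos g with h0 | h0
      · rw [h0, zero_mul] at hm; omega
      · exact h0
    have hm0 : 0 < m := by
      rcases Nat.eq_zero_or_pos m with h0 | h0
      · rw [h0, mul_zero] at hm; omega
      · exact h0
    have h1 : m • z = 0 := by
      rw [← natCast_zsmul, hαγ, ha', hc']
      have e1 : (m : ℤ) • (((g : ℤ) * a') • P + ((g : ℤ) * c') • Q) =
          a' • (((g * m : ℕ) : ℤ) • P) + c' • (((g * m : ℕ) : ℤ) • Q) := by
        push_cast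
        module
      rw [e1, ← hm, hB.hP, hB.hQ, smul_zero, smul_zero, add_zero]
    have h2 := addOrderOf_dvd_of_nsmul_eq_zero h1
    rw [hord] at h2
    have h3 := Nat.le_of_dvd hm0 h2
    have hg1 : g = 1 := by
      rw [hm] at h3
      nlinarith
    have e1 := Int.gcd_eq_gcd_ab (Int.gcd α γ) n
    have e2 := Int.gcd_eq_gcd_ab α γ
    rw [← hg, hg1] at e1
    refine ⟨Int.gcdB α γ * Int.gcdA (Int.gcd α γ) n, -(Int.gcdA α γ * Int.gcdA (Int.gcd α γ) n),
      Int.gcdB (Int.gcd α γ) n, ?_⟩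
    push_cast at e1
    have e3 : ((Int.gcd α γ : ℕ) : ℤ) * Int.gcdA (Int.gcd α γ) n =
        (α * Int.gcdA α γ + γ * Int.gcdB α γ) * Int.gcdA (Int.gcd α γ) n := by rw [← e2]
    linear_combination -e1 - e3
  -- the conjugates
  have key : ∀ k : ℕ, ∃ σ : AlgebraicClosure K ≃ₐ[K] AlgebraicClosure K,
      act A B σ z = z + ((N : ℤ) * k) • (x • P + y • Q) := by
    intro k
    obtain ⟨σ, h1, h2, -⟩ := hA (1 - N * k * x * y) (N * k * x ^ 2) (-(N * k * y ^ 2))
      (1 + N * k * x * y) ⟨0, by ring⟩ ⟨-(k * x * y), by ring⟩ ⟨k * x ^ 2, by ring⟩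
      ⟨-(k * y ^ 2), by ring⟩ ⟨k * x * y, by ring⟩
    refine ⟨σ, ?_⟩
    have h1' : act A B σ P = (1 - N * k * x * y : ℤ) • P + (-(N * k * y ^ 2) : ℤ) • Q := h1
    have h2' : act A B σ Q = (N * k * x ^ 2 : ℤ) • P + (1 + N * k * x * y : ℤ) • Q := h2
    rw [hαγ, map_add, map_zsmul, map_zsmul, h1', h2']
    have e : α • ((1 - N * k * x * y : ℤ) • P + (-(N * k * y ^ 2) : ℤ) • Q) +
        γ • ((N * k * x ^ 2 : ℤ) • P + (1 + N * k * x * y : ℤ) • Q) =
        α • P + γ • Q + ((N : ℤ) * k * (x * γ - y * α)) • (x • P + y • Q) := by module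
    rw [e]
    congr 1
    have e2 : (N : ℤ) * k * (x * γ - y * α) = (N : ℤ) * k + (-(N * k * t)) * n := by
      linear_combination (N : ℤ) * k * hxy
    have e3 : (n : ℤ) • (x • P + y • Q) = 0 := by
      have e4 : (n : ℤ) • (x • P + y • Q) = x • ((n : ℤ) • P) + y • ((n : ℤ) • Q) := by module
      rw [e4, hB.hP, hB.hQ, zsmul_zero, zsmul_zero, add_zero]
    rw [e2, add_zsmul, mul_zsmul (x • P + y • Q) (-(N * k * t : ℤ)) n, e3, zsmul_zero, add_zero]
  choose s hs using key
  obtain ⟨L, hL⟩ : ∃ L : ℕ, L = (n + N - 1) / N := ⟨_, rfl⟩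
  have hLn : n ≤ N * L := by
    have h1 := Nat.div_add_mod (n + N - 1) N
    have h2 := Nat.mod_lt (n + N - 1) (by omega : N > 0)
    rw [← hL] at h1
    omega
  have hLN : ∀ k < L, N * k < n := by
    intro k hk
    have h1 : N * (k + 1) ≤ N * L := Nat.mul_le_mul_left _ hk
    have h2 : N * L ≤ n + N - 1 := by rw [hL]; exact Nat.mul_div_le _ _
    have h3 : N * (k + 1) = N * k + N := by ring
    omega
  have hLd : L ≤ Module.finrank K M := by
    rw [← AlgHom.card K M (AlgebraicClosure K)]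
    rw [← Finset.card_range L]
    refine (Finset.card_le_card_of_injOn (fun q => ((s q : AlgebraicClosure K ≃ₐ[K]
      AlgebraicClosure K) : AlgebraicClosure K →ₐ[K] AlgebraicClosure K).comp M.val)
      (fun q _ => Finset.mem_coe.2 (Finset.mem_univ _)) ?_)
    intro q hq q' hq' heq
    have hqL := Finset.mem_range.1 (Finset.mem_coe.1 hq)
    have hqL' := Finset.mem_range.1 (Finset.mem_coe.1 hq')
    have h1 : (s q')⁻¹ * s q ∈ M.fixingSubgroup := by
      rw [IntermediateField.mem_fixingSubgroup_iff]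
      intro u hu
      have h2 := congrArg (fun f : M →ₐ[K] AlgebraicClosure K => f ⟨u, hu⟩) heq
      have h3 : s q u = s q' u := h2
      rw [AlgEquiv.mul_apply, h3]
      exact (s q').symm_apply_apply u
    obtain ⟨m, hm⟩ := AddSubgroup.mem_zmultiples_iff.1 (hz _ h1)
    have h3 : act A B (s q) z = m • act A B (s q') z := by
      have : act A B (s q' * ((s q')⁻¹ * s q)) z = act A B (s q') (m • z) := by rw [act_mul, ← hm]
      rwa [mul_inv_cancel_left, map_zsmul] at this
    rw [hs q, hs q'] at h3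
    -- coordinates
    have h4 := hB.ind ((1 - m) * α + ((N : ℤ) * q - m * (N * q')) * x)
      ((1 - m) * γ + ((N : ℤ) * q - m * (N * q')) * y) (by
      have e : ((1 - m) * α + ((N : ℤ) * q - m * (N * q')) * x) • P +
          ((1 - m) * γ + ((N : ℤ) * q - m * (N * q')) * y) • Q =
          (z + ((N : ℤ) * q) • (x • P + y • Q)) - m • (z + ((N : ℤ) * q') • (x • P + y • Q)) := by
        rw [hαγ]
        module
      rw [e, h3, sub_self])
    obtain ⟨h5, h6⟩ := h4
    -- `n ∣ 1 - m`
    have h7 : (n : ℤ) ∣ 1 - m := by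
      have h8 := (h6.mul_left x).sub (h5.mul_left y)
      have e : x * ((1 - m) * γ + ((N : ℤ) * q - m * (N * q')) * y) -
          y * ((1 - m) * α + ((N : ℤ) * q - m * (N * q')) * x) = (1 - m) * (x * γ - y * α) := by ring
      rw [e] at h8
      have e2 : (1 - m) = (1 - m) * (x * γ - y * α) + (1 - m) * t * n := by
        linear_combination -(1 - m) * hxy
      rw [e2]
      exact h8.add (Dvd.intro_left _ rfl)
    have h8 : (n : ℤ) ∣ (N : ℤ) * q - m * (N * q') := by
      have h9 := (h5.mul_left γ).sub (h6.mul_left α)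
      have e : γ * ((1 - m) * α + ((N : ℤ) * q - m * (N * q')) * x) -
          α * ((1 - m) * γ + ((N : ℤ) * q - m * (N * q')) * y) =
          ((N : ℤ) * q - m * (N * q')) * (x * γ - y * α) := by ring
      rw [e] at h9
      have e2 : ((N : ℤ) * q - m * (N * q')) = ((N : ℤ) * q - m * (N * q')) * (x * γ - y * α) +
          ((N : ℤ) * q - m * (N * q')) * t * n := by
        linear_combination -((N : ℤ) * q - m * (N * q')) * hxy
      rw [e2]
      exact h9.add (Dvd.intro_left _ rfl)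
    have h9 : (n : ℤ) ∣ (N : ℤ) * q - N * q' := by
      have e : (N : ℤ) * q - N * q' = ((N : ℤ) * q - m * (N * q')) - (1 - m) * (N * q') := by ring
      rw [e]
      exact h8.sub (h7.mul_right _)
    have b1 : ((N * q : ℕ) : ℤ) < n := by exact_mod_cast hLN q hqL
    have b2 : ((N * q' : ℕ) : ℤ) < n := by exact_mod_cast hLN q' hqL'
    push_cast at b1 b2
    have b3 : (0 : ℤ) ≤ (N : ℤ) * q := by positivity
    have b4 : (0 : ℤ) ≤ (N : ℤ) * q' := by positivity
    have h10 := Int.eq_zero_of_abs_lt_dvd h9 (by rw [abs_lt]; constructor <;> linarith)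
    have hN0 : (N : ℤ) ≠ 0 := by
      have : (1 : ℤ) ≤ N := by exact_mod_cast hN
      omega
    have h11 : (q : ℤ) = q' := by
      apply mul_left_cancel₀ hN0
      linarith
    exact_mod_cast h11
  exact hLn.trans (Nat.mul_le_mul_left _ hLd)

end Pool.Agent.P8H9.UO
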