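import Mathlib
import Pool.Agent.P8H9.UO.Fin
import Pool.Agent.P8H9.UO.Orb
import Pool.Agent.N495.TS.TW
import Pool.Agent.Y673.SN.Pn

/-!
# Torsion over all extensions of abelian varieties isogenous to products (helper9; the reduction follows
helper495's `tq_gen`)
-/

set_option autoImplicit false
set_option linter.unusedSectionVars false

namespace Pool.Agent.P8H9.UO

open WeierstrassCurve NumberField IsDedekindDomain
open Pool.Agent.Y673.Loc Pool.Agent.Y673.SL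
open Pool.Agent.Q19.SU Pool.Agent.Q19.SU.Gen
open Pool.Agent.H901R3.MS Pool.Agent.W275.FM Pool.Agent.N495.TS
open Pool.Agent.H691R3 Pool.Agent.W223.AK Pool.Agent.Y733.LS

open scoped Classical in
/-- all curves of invariant `j` have a large image: congruence subgroups of level `N` -/
def LC {k : Type} [Field k] [NumberField k] (N : ℕ) (j : k) : Prop :=
  j ≠ 0 ∧ j ≠ 1728 ∧ ∀ A B : k, 4 * A ^ 3 + 27 * B ^ 2 ≠ 0 → jv A B = j →
    ∀ n : ℕ, 1 ≤ n → ∃ P Q : EP A B, Bas n P Q ∧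
      AllN (fun σ : AlgebraicClosure k ≃ₐ[k] AlgebraicClosure k => act A B σ) N n 1 P Q

open scoped Classical in
/-- **abelian varieties over extensions** -/
theorem tq_ext {N : ℕ} (hN : 1 ≤ N) (k : Type) [Field k] [NumberField k] (K : Type) [Field K]
    [NumberField K] [Algebra k K] [FiniteDimensional k K] {g : ℕ} {A B : Fin g → K}
    (hD : ∀ i, 4 * A i ^ 3 + 27 * B i ^ 2 ≠ 0) (j : Fin g → k) (hjl : ∀ i, LC N (j i))
    (hjv : ∀ i, jv (A i) (B i) = algebraMap k K (j i))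
    (Γ : AddSubgroup (∀ i, EP (A i) (B i))) (hfin : (Γ : Set (∀ i, EP (A i) (B i))).Finite)
    (hst : ∀ σ : AlgebraicClosure K ≃ₐ[K] AlgebraicClosure K, ∀ x ∈ Γ,
      (fun i => act (A i) (B i) σ (x i)) ∈ Γ)
    {x : ∀ i, EP (A i) (B i)}
    (hx : ∀ σ : AlgebraicClosure K ≃ₐ[K] AlgebraicClosure K,
      (fun i => act (A i) (B i) σ (x i) - x i) ∈ Γ)
    (hf : IsOfFinAddOrder (x : (∀ i, EP (A i) (B i)) ⧸ Γ)) :
    addOrderOf (x : (∀ i, EP (A i) (B i)) ⧸ Γ) ≤ (N * Module.finrank k K) ^ (2 * g) := by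
  obtain ⟨M, θ, hfd, hfr, hsurj, htw⟩ := tw_exists (k := k) K
  have hj0 : ∀ i, algebraMap k K (j i) ≠ 0 := fun i => by
    rw [Ne, map_eq_zero]
    exact (hjl i).1
  have hj1 : ∀ i, algebraMap k K (j i) ≠ 1728 := fun i h => by
    apply (hjl i).2.1
    apply (algebraMap k K).injective
    rw [h, map_ofNat]
  have hex : ∀ i, ∃ (A₀ B₀ : k) (φ : EP (A i) (B i) →+ EP A₀ B₀), (4 * A₀ ^ 3 + 27 * B₀ ^ 2 ≠ 0 ∧
      jv A₀ B₀ = j i) ∧
      Function.Injective φ ∧ ∀ σ, (∀ P, φ (act (A i) (B i) σ P) = act A₀ B₀ (θ σ) (φ P)) ∨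
        (∀ P, φ (act (A i) (B i) σ P) = - act A₀ B₀ (θ σ) (φ P)) := by
    intro i
    obtain ⟨r, hr0, hr1, hr2⟩ := Pool.Agent.Y673.SN.twist_of (hD i) (hjv i) (hj0 i) (hj1 i)
    have hne : j i - 1728 ≠ 0 := sub_ne_zero.2 (hjl i).2.1
    have hD0 : 4 * (-3 * j i * (j i - 1728)) ^ 3 + 27 * (-2 * j i * (j i - 1728) ^ 2) ^ 2 ≠ 0 := by
      have e : 4 * (-3 * j i * (j i - 1728)) ^ 3 + 27 * (-2 * j i * (j i - 1728) ^ 2) ^ 2 =
          -186624 * (j i) ^ 2 * (j i - 1728) ^ 3 := by ring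
      rw [e]
      exact mul_ne_zero (mul_ne_zero (by norm_num) (pow_ne_zero 2 (hjl i).1)) (pow_ne_zero 3 hne)
    have hjv0 : jv (-3 * j i * (j i - 1728)) (-2 * j i * (j i - 1728) ^ 2) = j i := by
      unfold jv
      rw [div_eq_iff hD0]
      ring
    obtain ⟨φ, h1, h2⟩ := htw (A i) (B i) r (-3 * j i * (j i - 1728)) (-2 * j i * (j i - 1728) ^ 2)
      hr0 (by
        rw [← hr1]
        simp only [map_mul, map_neg, map_sub, map_ofNat]) (by
        rw [← hr2]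
        simp only [map_mul, map_neg, map_sub, map_pow, map_ofNat])
    exact ⟨_, _, φ, ⟨hD0, hjv0⟩, h1, h2⟩
  choose A₀ B₀ φ hAB hφ hφ2 using hex
  obtain ⟨c, w, hcw, hdvd⟩ := Pool.Agent.N617.TS.t_TORSM
    (AlgebraicClosure K ≃ₐ[K] AlgebraicClosure K) g
    (fun i => EP (A i) (B i)) (fun i σ => act (A i) (B i) σ)
    (fun i q hq => Pool.Agent.P8H9.TQ.span2 (hD i) hq) Γ hfin (fun σ y hy => hst σ y hy) x
    (fun σ => hx σ) hf
  -- transfer
  have trans : ∀ (i : Fin g) (y : EP (A i) (B i)),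
      (∀ σ, act (A i) (B i) σ y ∈ AddSubgroup.zmultiples y) →
      ∀ τ ∈ M.fixingSubgroup, act (A₀ i) (B₀ i) τ (φ i y) ∈ AddSubgroup.zmultiples (φ i y) := by
    intro i y hy τ hτ
    obtain ⟨σ, rfl⟩ := hsurj τ hτ
    obtain ⟨m, hm⟩ := AddSubgroup.mem_zmultiples_iff.1 (hy σ)
    rcases hφ2 i σ with h | h
    · refine AddSubgroup.mem_zmultiples_iff.2 ⟨m, ?_⟩
      rw [← h y, ← hm, map_zsmul]
    · refine AddSubgroup.mem_zmultiples_iff.2 ⟨-m, ?_⟩
      have h1 := h y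
      rw [← hm, map_zsmul] at h1
      rw [neg_zsmul, h1, neg_neg]
  have bound : ∀ (i : Fin g) (y : EP (A i) (B i)), IsOfFinAddOrder y →
      (∀ σ, act (A i) (B i) σ y ∈ AddSubgroup.zmultiples y) →
      addOrderOf y ≤ N * Module.finrank k K := by
    intro i y hyf hy
    have ho : addOrderOf (φ i y) = addOrderOf y := addOrderOf_injective (φ i) (hφ i) _
    obtain ⟨P, Q, hB, hA⟩ := (hjl i).2.2 _ _ (hAB i).1 (hAB i).2 (addOrderOf y) hyf.addOrderOf_pos
    rw [← hfr]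
    exact orb_cong hyf.addOrderOf_pos hN hB hA M (trans i y hy) ho
  have hpos : 0 < ∏ i, (addOrderOf (c i) * addOrderOf (w i)) :=
    Finset.prod_pos fun i _ => Nat.mul_pos (hcw i).1.addOrderOf_pos (hcw i).2.1.addOrderOf_pos
  refine (Nat.le_of_dvd hpos hdvd).trans ?_
  refine (Finset.prod_le_prod' (g := fun _ => (N * Module.finrank k K) ^ 2) fun i _ => ?_).trans ?_
  · have h1 := bound i (c i) (hcw i).1 (hcw i).2.2.1
    have h2 := bound i (w i) (hcw i).2.1 (fun σ => by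
      have h1 : act (A i) (B i) σ (w i) = w i := (hcw i).2.2.2 σ
      rw [h1]
      exact AddSubgroup.mem_zmultiples _)
    rw [pow_two]
    exact Nat.mul_le_mul h1 h2
  · rw [Finset.prod_const, Finset.card_univ, Fintype.card_fin, ← pow_mul]

/-- no poles at the special invariants -/
theorem not_special {k : Type} [Field k] [NumberField k] {j : k} (h : 0 < Pool.Agent.P8H9.TQ.rad j) :
    j ≠ 0 ∧ j ≠ 1728 := by
  obtain ⟨v, hv⟩ := Pool.Agent.P8H9.TQ.exists_pole h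
  constructor
  · rintro rfl
    rw [map_zero] at hv
    linarith
  · rintro rfl
    have : fv v (1728 : k) ≤ 1 := (fv_Na v).ofNat 1728
    linarith

/-- **the invariants with many poles** -/
theorem lc_all (β : ℝ) (hβ : 0 < β) : ∃ (N : ℕ) (C : ℝ), 1 ≤ N ∧ 0 ≤ C ∧
    ∀ (k : Type) [Field k] [NumberField k] (j : k), C * Module.finrank ℚ k ≤ ht j →
    β * ht j ≤ Pool.Agent.P8H9.TQ.rad j → LC N j := by
  obtain ⟨N, C, hN, hC, h⟩ := uo β hβ
  refine ⟨N, C + 1, hN, by linarith, ?_⟩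
  intro k _ _ j hht hrad
  have hd1 : (1 : ℝ) ≤ (Module.finrank ℚ k : ℝ) := by
    have : 0 < Module.finrank ℚ k := Module.finrank_pos
    exact_mod_cast this
  have hpos : 0 < ht j := by nlinarith
  have hsp := not_special (j := j) (by nlinarith)
  refine ⟨hsp.1, hsp.2, ?_⟩
  intro A B hD hj n hn
  have e : jj A B = j := hj
  refine h k A B hD ?_ ?_ n hn
  · rw [e]
    nlinarith
  · rw [e]
    exact hrad

end Pool.Agent.P8H9.UO
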