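import Mathlib
import Pool.Agent.P8H9.UO.Ext
import Pool.Agent.P8H12.ST.TwH
import Pool.Agent.P8H12.ST.Twi2
import Pool.Agent.P8H12.ST.Siz
import Pool.Agent.P8H12.ST.Fix
import Pool.Agent.P8H61.DV.Min
import Pool.Agent.P8H75.DV.Idx

/-!
# Torsion over all extensions of abelian varieties geometrically isogenous to products (helper9; the
reduction follows `P8H12.ST.ordH` and helper495's `tq_gen`)
-/

set_option autoImplicit false
set_option linter.unusedSectionVars false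

namespace Pool.Agent.P8H9.UO

open WeierstrassCurve NumberField
open Pool.Agent.Y673.Loc Pool.Agent.Y673.SL
open Pool.Agent.Q19.SU Pool.Agent.Q19.SU.Gen
open Pool.Agent.H901R3.MS Pool.Agent.W275.FM Pool.Agent.N495.TS

/-- **the order of a cyclic subgroup which is stable under a subgroup of finite index** -/
theorem levN {G V : Type} [Group G] [AddCommGroup V] (act : G → V →+ V)
    (hmul : ∀ (σ τ : G) (v : V), act (σ * τ) v = act σ (act τ v))
    {n N : ℕ} (hn : 1 ≤ n) (hN : 1 ≤ N) {P Q : V} (hB : Bas n P Q) (hA : AllN act N n 1 P Q)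
    (H : Subgroup G) (hH : H.index ≠ 0) {z : V}
    (hz : ∀ σ ∈ H, act σ z ∈ AddSubgroup.zmultiples z) (hord : addOrderOf z = n) :
    n ≤ N * H.index := by
  have hnz : (n : ℤ) • z = 0 := by
    rw [natCast_zsmul, ← hord]; exact addOrderOf_nsmul_eq_zero z
  obtain ⟨α, γ, hαγ⟩ := hB.span z hnz
  have hn0 : (0 : ℤ) < n := by exact_mod_cast hn
  -- the coordinates are primitive
  obtain ⟨x, y, t, hxy⟩ : ∃ x y t : ℤ, x * γ - y * α + t * n = 1 := by
    obtain ⟨g, hg⟩ : ∃ g : ℕ, g = Int.gcd (Int.gcd α γ) n := ⟨_, rfl⟩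
    have hgn : (g : ℤ) ∣ n := by rw [hg]; exact Int.gcd_dvd_right _ _
    have hgac : (g : ℤ) ∣ Int.gcd α γ := by rw [hg]; exact Int.gcd_dvd_left _ _
    obtain ⟨m, hm⟩ : g ∣ n := by exact_mod_cast hgn
    obtain ⟨a', ha'⟩ := hgac.trans (Int.gcd_dvd_left α γ)
    obtain ⟨c', hc'⟩ := hgac.trans (Int.gcd_dvd_right α γ)
    have hg0 : 0 < g := by
      rcases Nat.eq_zero_or_pos g with h0 | h0
      · rw [h0, zero_mul] at hm; omega
      · exact h0
    have hm0 : 0 < m := by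
      rcases Nat.eq_zero_or_pos m with h0 | h0
      · rw [h0, mul_zero] at hm; omega
      · exact h0
    have h1 : m • z = 0 := by
      rw [← natCast_zsmul, hαγ, ha', hc']
      have e1 : (m : ℤ) • (((g : ℤ) * a') • P + ((g : ℤ) * c') • Q) =
          a' • (((g * m : ℕ) : ℤ) • P) + c' • (((g * m : ℕ) : ℤ) • Q) := by
        push_cast
        module
      rw [e1, ← hm, hB.hP, hB.hQ, smul_zero, smul_zero, add_zero]
    have h2 := addOrderOf_dvd_of_nsmul_eq_zero h1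
    rw [hord] at h2
    have h3 := Nat.le_of_dvd hm0 h2
    have hg1 : g = 1 := by
      rw [hm] at h3
      nlinarith
    have e1 := Int.gcd_eq_gcd_ab (Int.gcd α γ) n
    have e2 := Int.gcd_eq_gcd_ab α γ
    rw [← hg, hg1] at e1
    refine ⟨Int.gcdB α γ * Int.gcdA (Int.gcd α γ) n, -(Int.gcdA α γ * Int.gcdA (Int.gcd α γ) n),
      Int.gcdB (Int.gcd α γ) n, ?_⟩
    push_cast at e1
    have e3 : ((Int.gcd α γ : ℕ) : ℤ) * Int.gcdA (Int.gcd α γ) n =
        (α * Int.gcdA α γ + γ * Int.gcdB α γ) * Int.gcdA (Int.gcd α γ) n := by rw [← e2]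
    linear_combination -e1 - e3
  -- the conjugates
  have key : ∀ k : ℕ, ∃ σ : G, act σ z = z + ((N : ℤ) * k) • (x • P + y • Q) := by
    intro k
    obtain ⟨σ, h1, h2, -⟩ := hA (1 - N * k * x * y) (N * k * x ^ 2) (-(N * k * y ^ 2))
      (1 + N * k * x * y) ⟨0, by ring⟩ ⟨-(k * x * y), by ring⟩ ⟨k * x ^ 2, by ring⟩
      ⟨-(k * y ^ 2), by ring⟩ ⟨k * x * y, by ring⟩
    refine ⟨σ, ?_⟩
    have h1' : act σ P = (1 - N * k * x * y : ℤ) • P + (-(N * k * y ^ 2) : ℤ) • Q := h1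
    have h2' : act σ Q = (N * k * x ^ 2 : ℤ) • P + (1 + N * k * x * y : ℤ) • Q := h2
    rw [hαγ, map_add, map_zsmul, map_zsmul, h1', h2']
    have e : α • ((1 - N * k * x * y : ℤ) • P + (-(N * k * y ^ 2) : ℤ) • Q) +
        γ • ((N * k * x ^ 2 : ℤ) • P + (1 + N * k * x * y : ℤ) • Q) =
        α • P + γ • Q + ((N : ℤ) * k * (x * γ - y * α)) • (x • P + y • Q) := by module
    rw [e]
    congr 1
    have e2 : (N : ℤ) * k * (x * γ - y * α) = (N : ℤ) * k + (-(N * k * t)) * n := by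
      linear_combination (N : ℤ) * k * hxy
    have e3 : (n : ℤ) • (x • P + y • Q) = 0 := by
      have e4 : (n : ℤ) • (x • P + y • Q) = x • ((n : ℤ) • P) + y • ((n : ℤ) • Q) := by module
      rw [e4, hB.hP, hB.hQ, zsmul_zero, zsmul_zero, add_zero]
    rw [e2, add_zsmul, mul_zsmul (x • P + y • Q) (-(N * k * t : ℤ)) n, e3, zsmul_zero, add_zero]
  choose s hs using key
  obtain ⟨L, hL⟩ : ∃ L : ℕ, L = (n + N - 1) / N := ⟨_, rfl⟩
  have hLn : n ≤ N * L := by
    have h1 := Nat.div_add_mod (n + N - 1) N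
    have h2 := Nat.mod_lt (n + N - 1) (by omega : N > 0)
    rw [← hL] at h1
    omega
  have hLN : ∀ k < L, N * k < n := by
    intro k hk
    have h1 : N * (k + 1) ≤ N * L := Nat.mul_le_mul_left _ hk
    have h2 : N * L ≤ n + N - 1 := by rw [hL]; exact Nat.mul_div_le _ _
    have h3 : N * (k + 1) = N * k + N := by ring
    omega
  have hinj : ∀ q q' : ℕ, q < L → q' < L → (s q')⁻¹ * s q ∈ H → q = q' := by
    intro q q' hqL hqL' h1
    obtain ⟨m, hm⟩ := AddSubgroup.mem_zmultiples_iff.1 (hz _ h1)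
    have h3 : act (s q) z = m • act (s q') z := by
      have : act (s q' * ((s q')⁻¹ * s q)) z = act (s q') (m • z) := by rw [hmul, ← hm]
      rwa [mul_inv_cancel_left, map_zsmul] at this
    rw [hs q, hs q'] at h3
    -- coordinates
    have h4 := hB.ind ((1 - m) * α + ((N : ℤ) * q - m * (N * q')) * x)
      ((1 - m) * γ + ((N : ℤ) * q - m * (N * q')) * y) (by
      have e : ((1 - m) * α + ((N : ℤ) * q - m * (N * q')) * x) • P +
          ((1 - m) * γ + ((N : ℤ) * q - m * (N * q')) * y) • Q =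
          (z + ((N : ℤ) * q) • (x • P + y • Q)) - m • (z + ((N : ℤ) * q') • (x • P + y • Q)) := by
        rw [hαγ]
        module
      rw [e, h3, sub_self])
    obtain ⟨h5, h6⟩ := h4
    -- `n ∣ 1 - m`
    have h7 : (n : ℤ) ∣ 1 - m := by
      have h8 := (h6.mul_left x).sub (h5.mul_left y)
      have e : x * ((1 - m) * γ + ((N : ℤ) * q - m * (N * q')) * y) -
          y * ((1 - m) * α + ((N : ℤ) * q - m * (N * q')) * x) = (1 - m) * (x * γ - y * α) := by ring
      rw [e] at h8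
      have e2 : (1 - m) = (1 - m) * (x * γ - y * α) + (1 - m) * t * n := by
        linear_combination -(1 - m) * hxy
      rw [e2]
      exact h8.add (Dvd.intro_left _ rfl)
    have h8 : (n : ℤ) ∣ (N : ℤ) * q - m * (N * q') := by
      have h9 := (h5.mul_left γ).sub (h6.mul_left α)
      have e : γ * ((1 - m) * α + ((N : ℤ) * q - m * (N * q')) * x) -
          α * ((1 - m) * γ + ((N : ℤ) * q - m * (N * q')) * y) =
          ((N : ℤ) * q - m * (N * q')) * (x * γ - y * α) := by ring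
      rw [e] at h9
      have e2 : ((N : ℤ) * q - m * (N * q')) = ((N : ℤ) * q - m * (N * q')) * (x * γ - y * α) +
          ((N : ℤ) * q - m * (N * q')) * t * n := by
        linear_combination -((N : ℤ) * q - m * (N * q')) * hxy
      rw [e2]
      exact h9.add (Dvd.intro_left _ rfl)
    have h9 : (n : ℤ) ∣ (N : ℤ) * q - N * q' := by
      have e : (N : ℤ) * q - N * q' = ((N : ℤ) * q - m * (N * q')) - (1 - m) * (N * q') := by ring
      rw [e]
      exact h8.sub (h7.mul_right _)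
    have b1 : ((N * q : ℕ) : ℤ) < n := by exact_mod_cast hLN q hqL
    have b2 : ((N * q' : ℕ) : ℤ) < n := by exact_mod_cast hLN q' hqL'
    push_cast at b1 b2
    have b3 : (0 : ℤ) ≤ (N : ℤ) * q := by positivity
    have b4 : (0 : ℤ) ≤ (N : ℤ) * q' := by positivity
    have h10 := Int.eq_zero_of_abs_lt_dvd h9 (by rw [abs_lt]; constructor <;> linarith)
    have hN0 : (N : ℤ) ≠ 0 := by
      have : (1 : ℤ) ≤ N := by exact_mod_cast hN
      omega
    have h11 : (q : ℤ) = q' := by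
      apply mul_left_cancel₀ hN0
      linarith
    exact_mod_cast h11
  have hLd : L ≤ H.index := by
    have hi : Function.Injective (fun q : Fin L => ((s (q : ℕ) : G) : G ⧸ H)) := by
      intro q q' hbc
      exact Fin.ext (hinj _ _ q.2 q'.2 (QuotientGroup.eq.1 hbc.symm))
    have hfin : Finite (G ⧸ H) := Nat.finite_of_card_ne_zero hH
    have := Nat.card_le_card_of_injective _ hi
    rwa [Nat.card_eq_fintype_card, Fintype.card_fin] at this
  exact hLn.trans (Nat.mul_le_mul_left _ hLd)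

open scoped Classical in
/-- **the order of a stable cyclic subgroup of an elliptic curve over a finite extension** -/
theorem ordN {N : ℕ} (hN1 : 1 ≤ N) {k : Type} [Field k] [NumberField k] {K : Type} [Field K]
    [CharZero K] [Algebra k K] [FiniteDimensional k K] {A B : K}
    (hD : 4 * A ^ 3 + 27 * B ^ 2 ≠ 0) {j : k} (hj : LC N j) (hjv : jv A B = algebraMap k K j)
    (U : Subgroup (AlgebraicClosure K ≃ₐ[K] AlgebraicClosure K)) (hU : U.index ≠ 0)
    {y : EP A B} (hy : IsOfFinAddOrder y)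
    (hst : ∀ σ ∈ U, act A B σ y ∈ AddSubgroup.zmultiples y) :
    addOrderOf y ≤ N * (U.index * Module.finrank k K) := by
  obtain ⟨θ, hθ, htw⟩ := Pool.Agent.P8H12.ST.tw_hom (k := k) K
  have hj0 : algebraMap k K j ≠ 0 := by
    rw [Ne, map_eq_zero]
    exact hj.1
  have hj1 : algebraMap k K j ≠ 1728 := fun h => by
    apply hj.2.1
    apply (algebraMap k K).injective
    rw [h, map_ofNat]
  obtain ⟨A₀, B₀, φ, ⟨hD0, hjv0⟩, hφ, hφ2⟩ : ∃ (A₀ B₀ : k) (φ : EP A B →+ EP A₀ B₀),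
      (4 * A₀ ^ 3 + 27 * B₀ ^ 2 ≠ 0 ∧ jv A₀ B₀ = j) ∧
      Function.Injective φ ∧ ∀ σ, (∀ P, φ (act A B σ P) = act A₀ B₀ (θ σ) (φ P)) ∨
        (∀ P, φ (act A B σ P) = - act A₀ B₀ (θ σ) (φ P)) := by
    obtain ⟨r, hr0, hr1, hr2⟩ := Pool.Agent.Y673.SN.twist_of hD hjv hj0 hj1
    have hne : j - 1728 ≠ 0 := sub_ne_zero.2 hj.2.1
    have hD0 : 4 * (-3 * j * (j - 1728)) ^ 3 + 27 * (-2 * j * (j - 1728) ^ 2) ^ 2 ≠ 0 := by
      have e : 4 * (-3 * j * (j - 1728)) ^ 3 + 27 * (-2 * j * (j - 1728) ^ 2) ^ 2 =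
          -186624 * j ^ 2 * (j - 1728) ^ 3 := by ring
      rw [e]
      exact mul_ne_zero (mul_ne_zero (by norm_num) (pow_ne_zero 2 hj.1)) (pow_ne_zero 3 hne)
    have hjv0 : jv (-3 * j * (j - 1728)) (-2 * j * (j - 1728) ^ 2) = j := by
      unfold jv
      rw [div_eq_iff hD0]
      ring
    obtain ⟨φ, h1, h2⟩ := htw A B r (-3 * j * (j - 1728)) (-2 * j * (j - 1728) ^ 2)
      hr0 (by
        rw [← hr1]
        simp only [map_mul, map_neg, map_sub, map_ofNat]) (by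
        rw [← hr2]
        simp only [map_mul, map_neg, map_sub, map_pow, map_ofNat])
    exact ⟨_, _, φ, ⟨hD0, hjv0⟩, h1, h2⟩
  have ho : addOrderOf (φ y) = addOrderOf y := addOrderOf_injective φ hφ y
  obtain ⟨P, Q, hB, hA⟩ := hj.2.2 _ _ hD0 hjv0 (addOrderOf y) hy.addOrderOf_pos
  have hidx : (U.map θ).index = U.index * Module.finrank k K := hθ U
  have hfr : Module.finrank k K ≠ 0 := (Module.finrank_pos (R := k) (M := K)).ne'
  rw [← hidx]
  refine levN (fun σ => act A₀ B₀ σ) (fun σ τ v => by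
      show act A₀ B₀ (σ * τ) v = act A₀ B₀ σ (act A₀ B₀ τ v)
      rw [act_mul]) hy.addOrderOf_pos hN1 hB hA
    (U.map θ) (by rw [hidx]; exact Nat.mul_ne_zero hU hfr) (z := φ y) ?_ ho
  rintro τ ⟨σ, hσ, rfl⟩
  obtain ⟨m, hm⟩ := AddSubgroup.mem_zmultiples_iff.1 (hst σ hσ)
  rcases hφ2 σ with h | h
  · refine AddSubgroup.mem_zmultiples_iff.2 ⟨m, ?_⟩
    rw [← h y, ← hm, map_zsmul]
  · refine AddSubgroup.mem_zmultiples_iff.2 ⟨-m, ?_⟩
    have h1 := h y
    rw [← hm, map_zsmul] at h1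
    rw [neg_zsmul, h1, neg_neg]

/-- the index of the kernel of the twist: Minkowski's bound -/
theorem idx_le {G : Type} [Group G] {r : ℕ} {n : Fin r → ℕ}
    (ρ : ∀ i, G →* Matrix.GeneralLinearGroup (Fin (n i)) ℤ)
    (h : ∀ i σ, ∃ t : ℕ, 0 < t ∧ ρ i σ ^ t = 1) :
    (⨅ i, (ρ i).ker).index ≠ 0 ∧ (⨅ i, (ρ i).ker).index ≤ 3 ^ (∑ i, n i) ^ 2 := by
  obtain ⟨h1, h2⟩ := Pool.Agent.P8H75.DV.idx Pool.Agent.P8H61.DV.min 3 r n Nat.prime_three
    (by norm_num) G ρ h
  refine ⟨h1, ?_⟩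
  have hpos : 0 < ∏ i, ∏ a ∈ Finset.range (n i), (3 ^ n i - 3 ^ a) := by
    refine Finset.prod_pos fun i _ => Finset.prod_pos fun a ha => ?_
    have := Nat.pow_lt_pow_right (a := 3) (by norm_num) (Finset.mem_range.1 ha)
    omega
  refine (Nat.le_of_dvd hpos h2).trans ?_
  have h3 : ∀ i, ∏ a ∈ Finset.range (n i), (3 ^ n i - 3 ^ a) ≤ 3 ^ (n i * n i) := by
    intro i
    refine (Finset.prod_le_prod' (g := fun _ => 3 ^ n i) fun a _ => Nat.sub_le _ _).trans ?_
    rw [Finset.prod_const, Finset.card_range, ← pow_mul]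
  refine (Finset.prod_le_prod' fun i _ => h3 i).trans ?_
  rw [Finset.prod_pow_eq_pow_sum]
  refine Nat.pow_le_pow_right (by norm_num) ?_
  rw [sq, Finset.sum_mul]
  exact Finset.sum_le_sum fun i _ => Nat.mul_le_mul_left _
    (Finset.single_le_sum (f := n) (fun _ _ => Nat.zero_le _) (Finset.mem_univ i))

open scoped Classical in
/-- **abelian varieties over extensions which are geometrically isogenous to products** -/
theorem tq_geo {N : ℕ} (hN : 1 ≤ N) (k : Type) [Field k] [NumberField k] (K : Type) [Field K]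
    [NumberField K] [Algebra k K] [FiniteDimensional k K] {r : ℕ} {n : Fin r → ℕ}
    {A B : Fin r → K} (hD : ∀ i, 4 * A i ^ 3 + 27 * B i ^ 2 ≠ 0) (j : Fin r → k)
    (hjl : ∀ i, LC N (j i)) (hjv : ∀ i, jv (A i) (B i) = algebraMap k K (j i))
    (ρ : ∀ i, (AlgebraicClosure K ≃ₐ[K] AlgebraicClosure K) →*
      Matrix.GeneralLinearGroup (Fin (n i)) ℤ)
    (hρ : (⨅ i, (ρ i).ker).index ≠ 0)
    (Γ : AddSubgroup (∀ i, Fin (n i) → EP (A i) (B i)))
    (hfin : (Γ : Set (∀ i, Fin (n i) → EP (A i) (B i))).Finite)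
    (hst : ∀ σ : AlgebraicClosure K ≃ₐ[K] AlgebraicClosure K, ∀ x ∈ Γ,
      Pool.Agent.P8H12.ST.tws (fun i σ => act (A i) (B i) σ) ρ σ x ∈ Γ)
    {x : ∀ i, Fin (n i) → EP (A i) (B i)}
    (hx : ∀ σ : AlgebraicClosure K ≃ₐ[K] AlgebraicClosure K,
      Pool.Agent.P8H12.ST.tws (fun i σ => act (A i) (B i) σ) ρ σ x - x ∈ Γ)
    (hf : IsOfFinAddOrder (x : (∀ i, Fin (n i) → EP (A i) (B i)) ⧸ Γ)) :
    addOrderOf (x : (∀ i, Fin (n i) → EP (A i) (B i)) ⧸ Γ) ≤
      (N * ((⨅ i, (ρ i).ker).index * Module.finrank k K)) ^ (2 * ∑ i, n i) := by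
  obtain ⟨c, w, h1, h2⟩ := Pool.Agent.P8H12.ST.twi2 Pool.Agent.N617.TS.t_TORSM
    (V := fun i => EP (A i) (B i)) (fun i σ => act (A i) (B i) σ)
    (fun i q hq => Pool.Agent.P8H9.TQ.span2 (hD i) hq) ρ Γ hfin hst x hx hf
  have hc := fun a => ordN hN (hD _) (hjl _) (hjv _) _ hρ (h1 a).1 (h1 a).2.2.1
  have hw := fun a => ordN hN (hD _) (hjl _) (hjv _) _ hρ (h1 a).2.1 (fun σ hσ => by
    rw [show act _ _ σ (w a) = w a from (h1 a).2.2.2 σ hσ]
    exact AddSubgroup.mem_zmultiples _)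
  have hpos : 0 < ∏ a, (addOrderOf (c a) * addOrderOf (w a)) :=
    Finset.prod_pos fun a _ => Nat.mul_pos (h1 a).1.addOrderOf_pos (h1 a).2.1.addOrderOf_pos
  refine (Nat.le_of_dvd hpos h2).trans ?_
  refine (Finset.prod_le_prod' (g := fun _ => (N * ((⨅ i, (ρ i).ker).index *
    Module.finrank k K)) ^ 2) fun a _ => ?_).trans ?_
  · rw [pow_two]
    exact Nat.mul_le_mul (hc a) (hw a)
  · rw [Finset.prod_const, Finset.card_univ, Fintype.card_fin, ← pow_mul]

end Pool.Agent.P8H9.UO
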